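import Mathlib

set_option linter.all false

open scoped BigOperators

namespace BG

section Formula

variable {n : ℕ} {A : Type} [CommRing A] [Algebra ℝ A]

/-- Christoffel symbol `Γ^k_{ij}` of the metric `g` with inverse `gi`. -/
noncomputable def chr (D : Fin n → A → A) (g gi : Fin n → Fin n → A) (k i j : Fin n) : A :=
  (1 / 2 : ℝ) • ∑ l, gi k l * (D i (g j l) + D j (g i l) - D l (g i j))

/-- Ricci tensor `Ric_{ij} = ∂_k Γ^k_{ij} - ∂_j Γ^k_{ik} + Γ^k_{kl} Γ^l_{ij} - Γ^k_{jl} Γ^l_{ik}`. -/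
noncomputable def ric (D : Fin n → A → A) (g gi : Fin n → Fin n → A) (i j : Fin n) : A :=
  (∑ k, (D k (chr D g gi k i j) - D j (chr D g gi k i k)))
    + ∑ k, ∑ l, (chr D g gi k k l * chr D g gi l i j - chr D g gi k j l * chr D g gi l i k)

/-- Covariant derivative of a covariant `m`-tensor; the new (derivative) index is index `0`. -/
noncomputable def covD (D : Fin n → A → A) (g gi : Fin n → Fin n → A) {m : ℕ}
    (T : (Fin m → Fin n) → A) (i : Fin (m + 1) → Fin n) : A :=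
  D (i 0) (T (Fin.tail i))
    - ∑ p : Fin m, ∑ k, chr D g gi k (i 0) (i p.succ) * T (Function.update (Fin.tail i) p k)

/-- `D` is a family of commuting `ℝ`-linear derivations. -/
structure IsDer (D : Fin n → A → A) : Prop where
  add : ∀ i a b, D i (a + b) = D i a + D i b
  mul : ∀ i a b, D i (a * b) = D i a * b + a * D i b
  smul : ∀ i (r : ℝ) a, D i (r • a) = r • D i a
  comm : ∀ i j a, D i (D j a) = D j (D i a)

/-- `g` is symmetric with inverse `gi`. -/
structure IsMetric (g gi : Fin n → Fin n → A) : Prop where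
  symm : ∀ i j, g i j = g j i
  inv : ∀ i j, ∑ k, g i k * gi k j = if i = j then 1 else 0

/-- The Riemann tensor with four lower indices:
`R_{ijkl} = g_{lm} (∂_i Γ^m_{jk} - ∂_j Γ^m_{ik} + Γ^m_{ip} Γ^p_{jk} - Γ^m_{jp} Γ^p_{ik})`. -/
noncomputable def rm (D : Fin n → A → A) (g gi : Fin n → Fin n → A) (i j k l : Fin n) : A :=
  ∑ m, g l m * (D i (chr D g gi m j k) - D j (chr D g gi m i k)
    + ∑ p, (chr D g gi m i p * chr D g gi p j k - chr D g gi m j p * chr D g gi p i k))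

end Formula

/-- the coordinate derivative `∂_i f` -/
noncomputable def pd {n : ℕ} (i : Fin n) (f : (Fin n → ℝ) → ℝ) : (Fin n → ℝ) → ℝ :=
  fun x => fderiv ℝ f x (Pi.single i 1)

/-- a relation between two rings with operators which is compatible with all operations -/
structure RelHom {n : ℕ} {A B : Type} [CommRing A] [Algebra ℝ A] [CommRing B] [Algebra ℝ B]
    (DA : Fin n → A → A) (DB : Fin n → B → B) (Rel : A → B → Prop) : Prop where
  one : Rel 1 1
  add : ∀ {a a' : A} {b b' : B}, Rel a b → Rel a' b' → Rel (a + a') (b + b')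
  mul : ∀ {a a' : A} {b b' : B}, Rel a b → Rel a' b' → Rel (a * a') (b * b')
  smul : ∀ (r : ℝ) {a : A} {b : B}, Rel a b → Rel (r • a) (r • b)
  der : ∀ i {a : A} {b : B}, Rel a b → Rel (DA i a) (DB i b)

/-- Universal polynomial formulas for covariant `m`-tensors in the metric, its inverse, the
Riemann tensor and covariant derivatives. -/
inductive TF : ℕ → Type
  /-- the metric -/
  | met : TF 2
  /-- the Riemann tensor -/
  | riem : TF 4
  /-- sum -/
  | add {m : ℕ} (s t : TF m) : TF m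
  /-- real multiple -/
  | smul {m : ℕ} (r : ℝ) (t : TF m) : TF m
  /-- tensor product -/
  | tmul {a b : ℕ} (s : TF a) (t : TF b) : TF (a + b)
  /-- permutation of the indices -/
  | perm {m : ℕ} (σ : Equiv.Perm (Fin m)) (t : TF m) : TF m
  /-- contraction of the first two indices with the inverse metric -/
  | contr {m : ℕ} (t : TF (m + 2)) : TF m
  /-- covariant derivative -/
  | nabla {m : ℕ} (t : TF m) : TF (m + 1)

/-- The value of a formula. -/
noncomputable def TF.eval {n : ℕ} {A : Type} [CommRing A] [Algebra ℝ A]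
    (D : Fin n → A → A) (g gi : Fin n → Fin n → A) : {m : ℕ} → TF m → (Fin m → Fin n) → A
  | _, .met => fun i => g (i 0) (i 1)
  | _, .riem => fun i => rm D g gi (i 0) (i 1) (i 2) (i 3)
  | _, .add s t => fun i => s.eval D g gi i + t.eval D g gi i
  | _, .smul r t => fun i => r • t.eval D g gi i
  | _, .tmul (a := a) (b := b) s t => fun i =>
      s.eval D g gi (fun p => i (Fin.castAdd b p)) * t.eval D g gi (fun p => i (Fin.natAdd a p))
  | _, .perm σ t => fun i => t.eval D g gi (fun p => i (σ p))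
  | _, .contr t => fun i => ∑ a, ∑ b, gi a b * t.eval D g gi (Fin.cons a (Fin.cons b i))
  | _, .nabla t => covD D g gi (t.eval D g gi)

/-- `g` is a smooth Riemannian metric on `ℝ^n`. -/
structure IsMet {n : ℕ} (g : (Fin n → ℝ) → Matrix (Fin n) (Fin n) ℝ) : Prop where
  smooth : ∀ i j, ContDiff ℝ (⊤ : ℕ∞) (fun x => g x i j)
  posDef : ∀ x, (g x).PosDef

/-- invariance under translations by integer vectors: `f` is a function on the torus
`ℝ^n / ℤ^n` -/
def Per {n : ℕ} {β : Type} (f : (Fin n → ℝ) → β) : Prop :=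
  ∀ (x : Fin n → ℝ) (z : Fin n → ℤ), f (fun i => x i + z i) = f x

/-- The value at `x` of the natural covariant tensor `t` for the metric `g`. -/
noncomputable def TF.val {n m : ℕ} (t : TF m) (g : (Fin n → ℝ) → Matrix (Fin n) (Fin n) ℝ)
    (i : Fin m → Fin n) (x : Fin n → ℝ) : ℝ :=
  t.eval pd (fun i j y => g y i j) (fun i j y => (g y)⁻¹ i j) i x

/-- The natural `n`-form `t dv_g` (as a function, with respect to `dx_1 ... dx_n`). -/
noncomputable def TF.form {n : ℕ} (t : TF 0) (g : (Fin n → ℝ) → Matrix (Fin n) (Fin n) ℝ)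
    (x : Fin n → ℝ) : ℝ :=
  Real.sqrt (g x).det * t.val g (fun p => p.elim0) x

/-- the conformal metric `e^{2 ω} g` -/
noncomputable def conf {n : ℕ} (ω : (Fin n → ℝ) → ℝ)
    (g : (Fin n → ℝ) → Matrix (Fin n) (Fin n) ℝ) : (Fin n → ℝ) → Matrix (Fin n) (Fin n) ℝ :=
  fun x => Real.exp (2 * ω x) • g x

/-- integration over the torus `ℝ^n / ℤ^n` -/
noncomputable def tint {n : ℕ} (f : (Fin n → ℝ) → ℝ) : ℝ :=
  ∫ x in Set.Icc (0 : Fin n → ℝ) 1, f x

/-- the natural form `L dv` is a local conformal invariant -/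
def IsLCI (n : ℕ) (L : TF 0) : Prop :=
  ∀ g : (Fin n → ℝ) → Matrix (Fin n) (Fin n) ℝ, IsMet g → ∀ ω : (Fin n → ℝ) → ℝ,
    ContDiff ℝ (⊤ : ℕ∞) ω → ∀ x, L.form (conf ω g) x = L.form g x

/-- On the torus `ℝ^n / ℤ^n`, `∫ F dv` has conformal variation `∫ ω G dv`. -/
def IsPrimitive (n : ℕ) (F G : TF 0) : Prop :=
  ∀ g : (Fin n → ℝ) → Matrix (Fin n) (Fin n) ℝ, IsMet g → Per g → ∀ ω : (Fin n → ℝ) → ℝ,
    ContDiff ℝ (⊤ : ℕ∞) ω → Per ω →
    HasDerivAt (fun ε : ℝ => tint (F.form (conf (fun x => ε * ω x) g)))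
      (tint (fun x => ω x * G.form g x)) 0

/-- The `Q`-curvature property at the flat metric `δ` of the torus:
`Q(e^{2ω} δ) = Q(δ) + P ω` with `P` linear and formally self-adjoint. -/
def IsQ (n : ℕ) (Q : TF 0) : Prop :=
  ∃ P : ((Fin n → ℝ) → ℝ) →ₗ[ℝ] ((Fin n → ℝ) → ℝ),
    (∀ ω : (Fin n → ℝ) → ℝ, ContDiff ℝ (⊤ : ℕ∞) ω → Per ω → ∀ x,
      Q.form (conf ω (fun _ => 1)) x = Q.form (fun _ => 1) x + P ω x) ∧
    (∀ φ ψ : (Fin n → ℝ) → ℝ, ContDiff ℝ (⊤ : ℕ∞) φ → Per φ → ContDiff ℝ (⊤ : ℕ∞) ψ → Per ψ →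
      tint (fun x => φ x * P ψ x) = tint (fun x => ψ x * P φ x))

/-- Ricci tensor as a formula -/
def tRic : TF 2 := .contr (m := 2) (.perm (Equiv.swap 1 3 * Equiv.swap 1 2) .riem)

/-- `|Ric|^2` -/
def tRic2 : TF 0 := .contr (m := 0) (.contr (m := 2) (.perm (Equiv.swap 1 2) (.tmul tRic tRic)))

/-- `Δ |Ric|^2` -/
def tS : TF 0 := .contr (m := 0) (.nabla (.nabla tRic2))

/-- `d |Ric|^2` -/
def tV : TF 1 := .nabla tRic2

/-- `N(w) = 30 w''^2 + 40 w'' w'^2 + 80 w'^4` -/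
noncomputable def Nf (w : ℝ → ℝ) (t : ℝ) : ℝ :=
  30 * deriv (deriv w) t ^ 2 + 40 * deriv (deriv w) t * deriv w t ^ 2 + 80 * deriv w t ^ 4

/-- `s(w) = (N' - 4 w' N)'` -/
noncomputable def sf (w : ℝ → ℝ) (t : ℝ) : ℝ :=
  deriv (fun u => deriv (Nf w) u - 4 * deriv w u * Nf w u) t

/-- the ring of smooth functions on `ℝ^n` -/
def Sm (n : ℕ) : Subalgebra ℝ ((Fin n → ℝ) → ℝ) where
  carrier := {f | ContDiff ℝ (⊤ : ℕ∞) f}
  mul_mem' := fun {a b} (ha : ContDiff ℝ (⊤ : ℕ∞) a) (hb : ContDiff ℝ (⊤ : ℕ∞) b) =>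
    (ha.mul hb : ContDiff ℝ (⊤ : ℕ∞) (fun x => a x * b x))
  add_mem' := fun {a b} (ha : ContDiff ℝ (⊤ : ℕ∞) a) (hb : ContDiff ℝ (⊤ : ℕ∞) b) =>
    (ha.add hb : ContDiff ℝ (⊤ : ℕ∞) (fun x => a x + b x))
  algebraMap_mem' := fun r => (contDiff_const : ContDiff ℝ (⊤ : ℕ∞) (fun _ : Fin n → ℝ => r))

end BG
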