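import Pool.Agent.Helper771.BG.Defs

set_option linter.all false

open scoped BigOperators

namespace BG



theorem conf_met {n : ℕ} {g : (Fin n → ℝ) → Matrix (Fin n) (Fin n) ℝ} (hg : IsMet g)
    {ω : (Fin n → ℝ) → ℝ} (hω : ContDiff ℝ (⊤ : ℕ∞) ω) :
    IsMet (conf ω g) ∧ (∀ ω' : (Fin n → ℝ) → ℝ, conf ω' (conf ω g) = conf (fun x => ω x + ω' x) g) ∧
      (Per g → Per ω → Per (conf ω g)) := by
  refine ⟨?_, ?_, ?_⟩
  · refine ⟨fun i j => ?_, fun x => ?_⟩
    · have h1 := hg.1 i j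
      show ContDiff ℝ _ (fun x => Real.exp (2 * ω x) * g x i j)
      exact (Real.contDiff_exp.comp (contDiff_const.mul hω)).mul h1
    · exact (hg.2 x).smul (Real.exp_pos _)
  · intro ω'
    funext x
    show Real.exp (2 * ω' x) • (Real.exp (2 * ω x) • g x) = Real.exp (2 * (ω x + ω' x)) • g x
    rw [smul_smul, ← Real.exp_add]
    congr 2
    ring
  · intro h1 h2 x z
    show Real.exp (2 * ω (fun i => x i + z i)) • g (fun i => x i + z i) = Real.exp (2 * ω x) • g x
    rw [h1 x z, h2 x z]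

end BG
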