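import Pool.Agent.Helper771.BG.Defs
import Pool.Agent.Helper771.BG.P_gi_symm
import Pool.Agent.Helper771.BG.P_metric_compat

set_option linter.all false

open scoped BigOperators

namespace BG



theorem div_formula {n : ℕ} {A : Type} [CommRing A] [Algebra ℝ A] {D : Fin n → A → A}
    (hD : IsDer D) {g gi : Fin n → Fin n → A} (h : IsMetric g gi) (v f : A)
    (hv : ∀ a, D a v = v * ∑ k, chr D g gi k a k) :
    v * ∑ a, ∑ b, gi a b * (D a (D b f) - ∑ k, chr D g gi k a b * D k f)
      = ∑ a, D a (v * ∑ b, gi a b * D b f) := by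
  obtain ⟨hs, -, hgi⟩ := metric_compat hD h
  have hz : ∀ a, D a 0 = 0 := by
    intro a
    have := hD.add a 0 0
    rw [add_zero] at this
    exact left_eq_add.mp this
  have hsum : ∀ a (F : Fin n → A), D a (∑ b, F b) = ∑ b, D a (F b) := by
    intro a F
    have : ∀ s : Finset (Fin n), D a (∑ b ∈ s, F b) = ∑ b ∈ s, D a (F b) := by
      intro s
      classical
      induction s using Finset.induction_on with
      | empty => simp [hz]
      | insert x s hx ih => rw [Finset.sum_insert hx, Finset.sum_insert hx, hD.add, ih]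
    exact this Finset.univ
  have h3 : ∀ F : Fin n → Fin n → Fin n → A, ∑ a, ∑ b, ∑ m, F a b m = ∑ m, ∑ b, ∑ a, F a b m := by
    intro F
    calc ∑ a, ∑ b, ∑ m, F a b m = ∑ a, ∑ m, ∑ b, F a b m :=
          Finset.sum_congr rfl fun a _ => Finset.sum_comm
      _ = ∑ m, ∑ a, ∑ b, F a b m := Finset.sum_comm
      _ = ∑ m, ∑ b, ∑ a, F a b m := Finset.sum_congr rfl fun m _ => Finset.sum_comm
  have hR : ∑ a, D a (v * ∑ b, gi a b * D b f)
      = v * ((∑ a, ∑ b, ∑ k, chr D g gi k a k * gi a b * D b f)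
        - (∑ a, ∑ b, ∑ m, chr D g gi a a m * gi m b * D b f)
        - (∑ a, ∑ b, ∑ m, chr D g gi b a m * gi a m * D b f)
        + ∑ a, ∑ b, gi a b * D a (D b f)) := by
    rw [← Finset.sum_sub_distrib, ← Finset.sum_sub_distrib, ← Finset.sum_add_distrib, Finset.mul_sum]
    apply Finset.sum_congr rfl
    intro a _
    rw [hD.mul, hsum, hv]
    rw [← Finset.sum_sub_distrib, ← Finset.sum_sub_distrib, ← Finset.sum_add_distrib]
    rw [mul_assoc, ← mul_add]
    congr 1
    rw [Finset.sum_mul_sum, Finset.sum_comm, ← Finset.sum_add_distrib]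
    apply Finset.sum_congr rfl
    intro b _
    rw [hD.mul, hgi, sub_mul, neg_mul, Finset.sum_mul, Finset.sum_mul]
    have e1 : ∑ k, chr D g gi k a k * (gi a b * D b f) = ∑ k, chr D g gi k a k * gi a b * D b f :=
      Finset.sum_congr rfl fun k _ => by ring
    rw [e1]
    ring
  have hL : ∑ a, ∑ b, gi a b * (D a (D b f) - ∑ k, chr D g gi k a b * D k f)
      = (∑ a, ∑ b, gi a b * D a (D b f)) - ∑ a, ∑ b, ∑ k, chr D g gi k a b * gi a b * D k f := by
    rw [← Finset.sum_sub_distrib]
    apply Finset.sum_congr rfl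
    intro a _
    rw [← Finset.sum_sub_distrib]
    apply Finset.sum_congr rfl
    intro b _
    rw [mul_sub, Finset.mul_sum]
    congr 1
    exact Finset.sum_congr rfl fun k _ => by ring
  have h12 : (∑ a, ∑ b, ∑ m, chr D g gi a a m * gi m b * D b f)
      = ∑ a, ∑ b, ∑ k, chr D g gi k a k * gi a b * D b f := by
    rw [h3]
    apply Finset.sum_congr rfl
    intro a _
    apply Finset.sum_congr rfl
    intro b _
    apply Finset.sum_congr rfl
    intro k _
    rw [hs k k a]
  have h33 : (∑ a, ∑ b, ∑ k, chr D g gi k a b * gi a b * D k f)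
      = ∑ a, ∑ b, ∑ m, chr D g gi b a m * gi a m * D b f :=
    Finset.sum_congr rfl fun a _ => Finset.sum_comm
  rw [hR, hL, h12, h33]
  ring

end BG
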