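import Pool.Agent.Helper771.BG.Defs
import Pool.Agent.Helper771.BG.P_gi_symm
import Pool.Agent.Helper771.BG.P_metric_compat

set_option linter.all false

open scoped BigOperators

namespace BG



theorem der_prod_aux {A : Type} [CommRing A] [Algebra ℝ A] {n : ℕ} {D : Fin n → A → A}
    (hD : IsDer D) (a : Fin n) {ι : Type} [DecidableEq ι] (s : Finset ι) (f : ι → A) :
    D a (∏ i ∈ s, f i) = ∑ i ∈ s, D a (f i) * ∏ j ∈ s.erase i, f j := by
  have h1 : D a 1 = 0 := by
    have := hD.mul a 1 1
    simp only [mul_one, one_mul] at this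
    have h2 : D a 1 + D a 1 = D a 1 + 0 := by rw [← this, add_zero]
    exact add_left_cancel h2
  induction s using Finset.induction_on with
  | empty => simpa using h1
  | insert i s hi ih =>
    rw [Finset.prod_insert hi, hD.mul, ih, Finset.sum_insert hi, Finset.erase_insert hi,
      Finset.mul_sum]
    congr 1
    apply Finset.sum_congr rfl
    intro j hj
    have hji : j ≠ i := fun h => hi (h ▸ hj)
    rw [Finset.erase_insert_of_ne (Ne.symm hji), Finset.prod_insert
      (fun h => hi (Finset.mem_of_mem_erase h))]
    ring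

theorem der_sum_aux {A : Type} [CommRing A] [Algebra ℝ A] {n : ℕ} {D : Fin n → A → A}
    (hD : IsDer D) (a : Fin n) {ι : Type} (s : Finset ι) (f : ι → A) :
    D a (∑ i ∈ s, f i) = ∑ i ∈ s, D a (f i) := by
  classical
  have h1 : D a 0 = 0 := by
    have := hD.add a 0 0
    simp only [add_zero] at this
    have h2 : D a 0 + D a 0 = D a 0 + 0 := by rw [← this, add_zero]
    exact add_left_cancel h2
  induction s using Finset.induction_on with
  | empty => simpa using h1
  | insert i s hi ih => rw [Finset.sum_insert hi, hD.add, ih, Finset.sum_insert hi]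

theorem der_det_aux {n : ℕ} {A : Type} [CommRing A] [Algebra ℝ A] {D : Fin n → A → A}
    (hD : IsDer D) (G : Matrix (Fin n) (Fin n) A) (a : Fin n) :
    D a G.det = ∑ i, (G.updateCol i (fun j => D a (G j i))).det := by
  simp only [Matrix.det_apply]
  rw [Finset.sum_comm, der_sum_aux hD]
  apply Finset.sum_congr rfl
  intro σ _
  have hs : ∀ x : A, D a (Equiv.Perm.sign σ • x) = Equiv.Perm.sign σ • D a x := by
    intro x
    rcases Int.units_eq_one_or (Equiv.Perm.sign σ) with h | h
    · rw [h]; simp
    · rw [h]
      have h2 := hD.smul a (-1) x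
      simpa using h2
  rw [hs, ← Finset.smul_sum, der_prod_aux hD]
  congr 1
  apply Finset.sum_congr rfl
  intro i _
  rw [← Finset.mul_prod_erase Finset.univ _ (Finset.mem_univ i)]
  congr 1
  · simp [Matrix.updateCol_apply]
  · apply Finset.prod_congr rfl
    intro j hj
    have hji : j ≠ i := Finset.ne_of_mem_erase hj
    simp [Matrix.updateCol_apply, hji]

theorem jacobi {n : ℕ} {A : Type} [CommRing A] [Algebra ℝ A] {D : Fin n → A → A}
    (hD : IsDer D) {g gi : Fin n → Fin n → A} (h : IsMetric g gi) (v vi : A)
    (hv : v * v = (Matrix.of g).det) (hvi : v * vi = 1) (a : Fin n) :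
    D a v = v * ∑ k, chr D g gi k a k := by
  have hdet := der_det_aux hD (Matrix.of g) a
  have hGi : Matrix.of g * Matrix.of gi = 1 := by
    ext i j
    rw [Matrix.mul_apply, Matrix.one_apply]
    exact h.inv i j
  have hadj : (Matrix.of g).adjugate = (Matrix.of g).det • Matrix.of gi := by
    have h1 : (Matrix.of g).adjugate * (Matrix.of g * Matrix.of gi) =
        (Matrix.of g).det • Matrix.of gi := by
      rw [← Matrix.mul_assoc, Matrix.adjugate_mul, Matrix.smul_mul, Matrix.one_mul]
    rw [hGi, Matrix.mul_one] at h1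
    exact h1
  have h2 : ∀ i, ((Matrix.of g).updateCol i (fun j => D a ((Matrix.of g) j i))).det =
      (Matrix.of g).det * ∑ j, gi i j * D a (g j i) := by
    intro i
    rw [← Matrix.cramer_apply, Matrix.cramer_eq_adjugate_mulVec, hadj]
    simp only [Matrix.mulVec, dotProduct, Matrix.smul_apply, Matrix.of_apply, smul_eq_mul,
      Finset.mul_sum]
    apply Finset.sum_congr rfl
    intro j _
    ring
  obtain ⟨hc1, hc2, hc3⟩ := metric_compat hD h
  obtain ⟨hg1, hg2⟩ := gi_symm h
  set S := ∑ k, chr D g gi k a k with hS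
  have h3 : ∑ i, ∑ j, gi i j * D a (g j i) = 2 * S := by
    have e1 : ∀ i j, gi i j * D a (g j i) = (∑ m, chr D g gi m a j * (g m i * gi i j)) +
        ∑ m, chr D g gi m a i * (gi i j * g j m) := by
      intro i j
      rw [hc2 a j i, mul_add, Finset.mul_sum, Finset.mul_sum]
      congr 1
      · apply Finset.sum_congr rfl
        intro m _
        ring
      · apply Finset.sum_congr rfl
        intro m _
        ring
    simp only [e1, Finset.sum_add_distrib]
    have e2 : ∑ i, ∑ j, ∑ m, chr D g gi m a j * (g m i * gi i j) = S := by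
      rw [Finset.sum_comm]
      rw [hS]
      apply Finset.sum_congr rfl
      intro j _
      rw [Finset.sum_comm]
      simp only [← Finset.mul_sum, h.inv]
      simp
    have e3 : ∑ i, ∑ j, ∑ m, chr D g gi m a i * (gi i j * g j m) = S := by
      rw [hS]
      apply Finset.sum_congr rfl
      intro i _
      rw [Finset.sum_comm]
      simp only [← Finset.mul_sum, hg2]
      simp
    rw [e2, e3, two_mul]
  have h4 : D a (v * v) = v * v * (2 * S) := by
    rw [hv, hdet]
    simp only [h2, ← Finset.mul_sum]
    rw [h3]
  rw [hD.mul] at h4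
  have h5 : 2 * D a v = 2 * (v * S) := by
    have h6 : vi * (D a v * v + v * D a v) = vi * (v * v * (2 * S)) := by rw [h4]
    have h7 : vi * (D a v * v + v * D a v) = (v * vi) * (2 * D a v) := by ring
    have h8 : vi * (v * v * (2 * S)) = (v * vi) * (2 * (v * S)) := by ring
    rw [h7, h8, hvi, one_mul, one_mul] at h6
    exact h6
  have h9 : ∀ x : A, (1 / 2 : ℝ) • (2 * x) = x := by
    intro x
    have : (2 : A) * x = (2 : ℝ) • x := by
      rw [two_mul, two_smul]
    rw [this, smul_smul]
    norm_num
  rw [← h9 (D a v), h5, h9]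

end BG
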