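import Pool.Agent.Helper771.BG.Defs

set_option linter.all false

open scoped BigOperators

namespace BG



/-- Christoffel symbols of a conformally flat metric -/
def GG {A : Type} [CommRing A] (w : Fin 6 → A) (k i j : Fin 6) : A :=
  (if j = k then w i else 0) + (if i = k then w j else 0) - (if i = j then w k else 0)

theorem GG_iki {A : Type} [CommRing A] (w : Fin 6 → A) (k i : Fin 6) : GG w k i k = w i := by
  unfold GG
  rw [if_pos rfl]
  ring

theorem GG_kkl {A : Type} [CommRing A] (w : Fin 6 → A) (k l : Fin 6) : GG w k k l = w l := by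
  unfold GG
  rw [if_pos rfl]
  by_cases h : l = k
  · subst h
    ring
  · rw [if_neg h, if_neg (Ne.symm h)]
    ring

theorem sum_GG {A : Type} [CommRing A] (w : Fin 6 → A) (i j : Fin 6) :
    ∑ l, w l * GG w l i j = 2 * (w i * w j) - if i = j then ∑ l, w l ^ 2 else 0 := by
  unfold GG
  simp only [mul_sub, mul_add, mul_ite, mul_zero, Finset.sum_sub_distrib, Finset.sum_add_distrib,
    Finset.sum_ite_eq, Finset.mem_univ, if_true]
  by_cases h : i = j
  · simp only [if_pos h]
    have : ∑ l, w l * w l = ∑ l, w l ^ 2 := Finset.sum_congr rfl fun l _ => by ring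
    rw [this]
    ring
  · simp only [if_neg h, Finset.sum_const_zero]
    ring

theorem sum_GG2 {A : Type} [CommRing A] (w : Fin 6 → A) (i j : Fin 6) :
    ∑ k, ∑ l, GG w k j l * GG w l i k = 8 * (w i * w j) - 2 * if i = j then ∑ l, w l ^ 2 else 0 := by
  have h1 : ∀ k, ∑ l, GG w k j l * GG w l i k =
      w j * w i + (if j = k then (2 * (w i * w k) - if i = k then ∑ l, w l ^ 2 else 0) else 0) -
        w k * GG w j i k := by
    intro k
    have h2 : ∀ l, GG w k j l * GG w l i k = (if l = k then w j * GG w l i k else 0) +
        (if j = k then w l * GG w l i k else 0) - (if j = l then w k * GG w l i k else 0) := by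
      intro l
      conv_lhs => rw [GG]
      rw [sub_mul, add_mul, ite_mul, ite_mul, ite_mul, zero_mul]
    rw [Finset.sum_congr rfl fun l _ => h2 l, Finset.sum_sub_distrib, Finset.sum_add_distrib,
      Finset.sum_ite_eq', if_pos (Finset.mem_univ _), Finset.sum_ite_eq,
      if_pos (Finset.mem_univ _), GG_iki]
    congr 2
    by_cases h : j = k
    · simp only [if_pos h]
      rw [sum_GG]
    · simp only [if_neg h]
      rw [Finset.sum_const_zero]
  rw [Finset.sum_congr rfl fun k _ => h1 k, Finset.sum_sub_distrib, Finset.sum_add_distrib,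
    Finset.sum_ite_eq, if_pos (Finset.mem_univ _), Finset.sum_const, Finset.card_univ,
    Fintype.card_fin]
  have h3 : ∑ k, w k * GG w j i k = if i = j then ∑ l, w l ^ 2 else 0 := by
    unfold GG
    simp only [mul_sub, mul_add, mul_ite, mul_zero, Finset.sum_sub_distrib,
      Finset.sum_add_distrib, Finset.sum_ite_eq, Finset.sum_ite_eq', Finset.mem_univ, if_true]
    by_cases h : i = j
    · simp only [if_pos h]
      have : ∑ l, w l * w l = ∑ l, w l ^ 2 := Finset.sum_congr rfl fun l _ => by ring
      rw [this]
      ring
    · simp only [if_neg h, Finset.sum_const_zero]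
      ring
  rw [h3, nsmul_eq_mul]
  push_cast
  ring

theorem ric_conf {A : Type} [CommRing A] [Algebra ℝ A] {D : Fin 6 → A → A}
    (hD : IsDer D) (w E Ei : A) (hE : E * Ei = 1) (hDE : ∀ a, D a E = 2 * D a w * E) (i j : Fin 6) :
    ric D (fun i j => if i = j then E else 0) (fun i j => if i = j then Ei else 0) i j
      = -4 * (D i (D j w) - D i w * D j w)
        - (if i = j then (∑ k, D k (D k w)) + 4 * ∑ k, D k w ^ 2 else 0) := by
  have hD0 : ∀ a, D a 0 = 0 := by
    intro a
    have := hD.add a 0 0
    simpa using this
  have hDneg : ∀ a x, D a (-x) = -D a x := by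
    intro a x
    have h1 := hD.add a x (-x)
    rw [add_neg_cancel, hD0] at h1
    linear_combination -h1
  have hDsub : ∀ a x y, D a (x - y) = D a x - D a y := by
    intro a x y
    rw [sub_eq_add_neg, hD.add, hDneg, sub_eq_add_neg]
  have hchr : ∀ k i j, chr D (fun i j => if i = j then E else 0)
      (fun i j => if i = j then Ei else 0) k i j = GG (fun a => D a w) k i j := by
    intro k i j
    unfold chr
    have h1 : ∀ l, (if k = l then Ei else 0) * (D i (if j = l then E else 0) +
        D j (if i = l then E else 0) - D l (if i = j then E else 0)) =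
        if k = l then Ei * (D i (if j = l then E else 0) +
        D j (if i = l then E else 0) - D l (if i = j then E else 0)) else 0 := by
      intro l
      rw [ite_mul, zero_mul]
    rw [Finset.sum_congr rfl fun l _ => h1 l, Finset.sum_ite_eq, if_pos (Finset.mem_univ _)]
    have h2 : ∀ (P : Prop) [Decidable P] (a : Fin 6), D a (if P then E else 0) =
        2 * (if P then D a w else 0) * E := by
      intro P _ a
      split_ifs
      · exact hDE a
      · rw [hD0]
        ring
    rw [h2, h2, h2]
    have h3 : Ei * (2 * (if j = k then D i w else 0) * E + 2 * (if i = k then D j w else 0) * E -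
        2 * (if i = j then D k w else 0) * E) = GG (fun a => D a w) k i j +
          GG (fun a => D a w) k i j := by
      unfold GG
      linear_combination (2 * ((if j = k then D i w else 0) + (if i = k then D j w else 0) -
        (if i = j then D k w else 0))) * hE
    rw [h3, smul_add, ← add_smul]
    norm_num
  unfold ric
  simp only [hchr, GG_iki, GG_kkl]
  have hDG : ∀ k, D k (GG (fun a => D a w) k i j) = (if j = k then D k (D i w) else 0) +
      (if i = k then D k (D j w) else 0) - (if i = j then D k (D k w) else 0) := by
    intro k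
    have h2 : ∀ (P : Prop) [Decidable P] (x : A), D k (if P then x else 0) =
        if P then D k x else 0 := by
      intro P _ x
      split_ifs
      · rfl
      · exact hD0 k
    unfold GG
    rw [hDsub, hD.add, h2, h2, h2]
  have s1 : ∑ k, (D k (GG (fun a => D a w) k i j) - D j (D i w)) =
      D j (D i w) + D i (D j w) - (if i = j then ∑ k, D k (D k w) else 0) - 6 * D j (D i w) := by
    rw [Finset.sum_sub_distrib, Finset.sum_congr rfl fun k _ => hDG k, Finset.sum_sub_distrib,
      Finset.sum_add_distrib, Finset.sum_ite_eq, Finset.sum_ite_eq, if_pos (Finset.mem_univ _),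
      if_pos (Finset.mem_univ _), Finset.sum_const, Finset.card_univ, Fintype.card_fin,
      nsmul_eq_mul]
    have h3 : ∑ k, (if i = j then D k (D k w) else 0) = if i = j then ∑ k, D k (D k w) else 0 := by
      split_ifs
      · rfl
      · rw [Finset.sum_const_zero]
    rw [h3]
    push_cast
    ring
  have s2 : ∑ k : Fin 6, ∑ l, (D l w * GG (fun a => D a w) l i j -
      GG (fun a => D a w) k j l * GG (fun a => D a w) l i k) =
      6 * (2 * (D i w * D j w) - if i = j then ∑ l, D l w ^ 2 else 0) -
        (8 * (D i w * D j w) - 2 * if i = j then ∑ l, D l w ^ 2 else 0) := by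
    have h4 := sum_GG (fun a => D a w) i j
    have h5 := sum_GG2 (fun a => D a w) i j
    beta_reduce at h4 h5
    simp only [Finset.sum_sub_distrib]
    rw [h4, h5, Finset.sum_const, Finset.card_univ, Fintype.card_fin, nsmul_eq_mul]
    push_cast
    ring
  rw [s1, s2, hD.comm j i]
  by_cases h : i = j
  · simp only [if_pos h]
    ring
  · simp only [if_neg h]
    ring

end BG
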