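import Pool.Agent.Helper771.BG.Defs

set_option linter.all false

open scoped BigOperators

namespace BG



theorem sm_der_pd {n : ℕ} (i : Fin n) {f : (Fin n → ℝ) → ℝ} (hf : ContDiff ℝ (⊤ : ℕ∞) f) :
    ContDiff ℝ (⊤ : ℕ∞) (pd i f) := by
  unfold pd
  exact (hf.fderiv_right (m := ((⊤ : ℕ∞) : WithTop ℕ∞)) (by simp)).clm_apply contDiff_const

theorem sm_der_diff {n : ℕ} {f : (Fin n → ℝ) → ℝ} (hf : ContDiff ℝ (⊤ : ℕ∞) f) (x : Fin n → ℝ) :
    DifferentiableAt ℝ f x := (hf.differentiable (by simp)).differentiableAt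

theorem sm_der_comm {n : ℕ} (i j : Fin n) {f : (Fin n → ℝ) → ℝ} (hf : ContDiff ℝ (⊤ : ℕ∞) f) :
    pd i (pd j f) = pd j (pd i f) := by
  have h2 : ContDiff ℝ (⊤ : ℕ∞) (fderiv ℝ f) :=
    hf.fderiv_right (m := ((⊤ : ℕ∞) : WithTop ℕ∞)) (by simp)
  have key : ∀ (i j : Fin n) (x : Fin n → ℝ), pd i (pd j f) x =
      fderiv ℝ (fderiv ℝ f) x (Pi.single i 1) (Pi.single j 1) := by
    intro i j x
    have h3 : DifferentiableAt ℝ (fderiv ℝ f) x := (h2.differentiable (by simp)).differentiableAt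
    unfold pd
    rw [fderiv_clm_apply h3 (differentiableAt_const _)]
    simp
  funext x
  rw [key, key]
  have hs : IsSymmSndFDerivAt ℝ f x :=
    hf.contDiffAt.isSymmSndFDerivAt (by
      rw [minSmoothness_of_isRCLikeNormedField]
      exact WithTop.coe_le_coe.2 (le_top : (2 : ℕ∞) ≤ ⊤))
  exact hs _ _

theorem sm_der (n : ℕ) : ∃ D : Fin n → Sm n → Sm n, IsDer D ∧
    (∀ i (f : Sm n), ((D i f : Sm n) : (Fin n → ℝ) → ℝ) = pd i (f : (Fin n → ℝ) → ℝ)) := by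
  refine ⟨fun i f => ⟨pd i f, sm_der_pd i f.2⟩, ⟨?_, ?_, ?_, ?_⟩, fun i f => rfl⟩
  · intro i a b
    apply Subtype.ext
    funext x
    show fderiv ℝ (fun y => (a : (Fin n → ℝ) → ℝ) y + (b : (Fin n → ℝ) → ℝ) y) x (Pi.single i 1) =
      fderiv ℝ a x (Pi.single i 1) + fderiv ℝ b x (Pi.single i 1)
    rw [fderiv_fun_add (sm_der_diff a.2 x) (sm_der_diff b.2 x)]
    rfl
  · intro i a b
    apply Subtype.ext
    funext x
    show fderiv ℝ (fun y => (a : (Fin n → ℝ) → ℝ) y * (b : (Fin n → ℝ) → ℝ) y) x (Pi.single i 1) =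
      fderiv ℝ a x (Pi.single i 1) * (b : (Fin n → ℝ) → ℝ) x +
        (a : (Fin n → ℝ) → ℝ) x * fderiv ℝ b x (Pi.single i 1)
    rw [fderiv_fun_mul (sm_der_diff a.2 x) (sm_der_diff b.2 x)]
    simp
    ring
  · intro i r a
    apply Subtype.ext
    funext x
    show fderiv ℝ (fun y => r • (a : (Fin n → ℝ) → ℝ) y) x (Pi.single i 1) =
      r • fderiv ℝ a x (Pi.single i 1)
    rw [fderiv_fun_const_smul (sm_der_diff a.2 x)]
    rfl
  · intro i j a
    apply Subtype.ext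
    exact sm_der_comm i j a.2

end BG
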