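import Pool.Agent.Helper771.BG.Defs

set_option linter.all false

open scoped BigOperators

namespace BG



/-- evaluation -/
noncomputable def smEv {n : ℕ} (x : Fin n → ℝ) : Sm n →+* ℝ :=
  (Pi.evalRingHom (fun _ : Fin n → ℝ => ℝ) x).comp (Sm n).val.toRingHom

theorem smEv_apply {n : ℕ} (x : Fin n → ℝ) (f : Sm n) :
    smEv x f = ((f : Sm n) : (Fin n → ℝ) → ℝ) x := rfl

theorem sm_ext {n : ℕ} {f f' : Sm n} (h : ∀ x, smEv x f = smEv x f') : f = f' := by
  apply Subtype.ext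
  funext x
  exact h x

theorem sm_metric {n : ℕ} {g : (Fin n → ℝ) → Matrix (Fin n) (Fin n) ℝ} (hg : IsMet g) :
    ∃ (G Gi : Fin n → Fin n → Sm n) (v vi : Sm n), IsMetric G Gi ∧
      (∀ i j, ((G i j : Sm n) : (Fin n → ℝ) → ℝ) = fun x => g x i j) ∧
      (∀ i j, ((Gi i j : Sm n) : (Fin n → ℝ) → ℝ) = fun x => (g x)⁻¹ i j) ∧
      (((v : Sm n) : (Fin n → ℝ) → ℝ) = fun x => Real.sqrt (g x).det) ∧
      v * v = (Matrix.of G).det ∧ v * vi = 1 := by
  let G : Fin n → Fin n → Sm n := fun i j => ⟨fun x => g x i j, hg.smooth i j⟩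
  have hG : ∀ x i j, smEv x (G i j) = g x i j := fun x i j => rfl
  have hGm : ∀ x, (Matrix.of G).map (smEv x) = g x := by
    intro x
    ext i j
    rfl
  have hdet : ∀ x, smEv x (Matrix.of G).det = (g x).det := by
    intro x
    rw [RingHom.map_det]
    congr 1
  have hpos : ∀ x, 0 < (g x).det := fun x => (hg.posDef x).det_pos
  have hds : ContDiff ℝ (⊤ : ℕ∞) (fun x => (g x).det) := by
    have h1 : ContDiff ℝ (⊤ : ℕ∞) (((Matrix.of G).det : Sm n) : (Fin n → ℝ) → ℝ) :=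
      (Matrix.of G).det.2
    have h2 : (((Matrix.of G).det : Sm n) : (Fin n → ℝ) → ℝ) = fun x => (g x).det := by
      funext x
      exact hdet x
    rwa [h2] at h1
  have hvs : ContDiff ℝ (⊤ : ℕ∞) (fun x => Real.sqrt (g x).det) :=
    hds.sqrt fun x => (hpos x).ne'
  have hvis : ContDiff ℝ (⊤ : ℕ∞) (fun x => (Real.sqrt (g x).det)⁻¹) :=
    hvs.inv fun x => (Real.sqrt_pos.mpr (hpos x)).ne'
  have hdis : ContDiff ℝ (⊤ : ℕ∞) (fun x => ((g x).det)⁻¹) :=
    hds.inv fun x => (hpos x).ne'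
  let v : Sm n := ⟨fun x => Real.sqrt (g x).det, hvs⟩
  let vi : Sm n := ⟨fun x => (Real.sqrt (g x).det)⁻¹, hvis⟩
  let di : Sm n := ⟨fun x => ((g x).det)⁻¹, hdis⟩
  have hv : ∀ x, smEv x v = Real.sqrt (g x).det := fun x => rfl
  have hvi : ∀ x, smEv x vi = (Real.sqrt (g x).det)⁻¹ := fun x => rfl
  have hdi : ∀ x, smEv x di = ((g x).det)⁻¹ := fun x => rfl
  have hadj : ∀ x i j, smEv x ((Matrix.of G).adjugate i j) = (g x).adjugate i j := by
    intro x i j
    have h1 := RingHom.map_adjugate (smEv x) (Matrix.of G)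
    have h2 : (smEv x).mapMatrix (Matrix.of G) = g x := hGm x
    rw [h2] at h1
    have h3 := congrFun (congrFun h1 i) j
    exact h3
  have hGi : ∀ x i j, smEv x (di * (Matrix.of G).adjugate i j) = (g x)⁻¹ i j := by
    intro x i j
    rw [map_mul, hdi, hadj, Matrix.inv_def, Matrix.smul_apply, Ring.inverse_eq_inv', smul_eq_mul]
  refine ⟨G, fun i j => di * (Matrix.of G).adjugate i j, v, vi, ⟨?_, ?_⟩, ?_, ?_, ?_, ?_, ?_⟩
  · intro i j
    apply sm_ext
    intro x
    rw [hG, hG]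
    have h1 := (hg.posDef x).isHermitian
    have h2 := h1.apply i j
    simpa using h2.symm
  · intro i j
    apply sm_ext
    intro x
    rw [map_sum]
    have h1 : (g x) * (g x)⁻¹ = 1 := Matrix.mul_nonsing_inv _ (hpos x).ne'.isUnit
    have h2 := congrFun (congrFun h1 i) j
    rw [Matrix.mul_apply] at h2
    have h3 : ∀ k, smEv x (G i k * (di * (Matrix.of G).adjugate k j)) = g x i k * (g x)⁻¹ k j := by
      intro k
      rw [map_mul, hGi, hG]
    rw [Finset.sum_congr rfl fun k _ => h3 k, h2, Matrix.one_apply]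
    split_ifs
    · rw [map_one]
    · rw [map_zero]
  · intro i j
    rfl
  · intro i j
    funext x
    exact hGi x i j
  · rfl
  · apply sm_ext
    intro x
    rw [map_mul, hv, hdet, Real.mul_self_sqrt (hpos x).le]
  · apply sm_ext
    intro x
    rw [map_mul, hv, hvi, map_one, mul_inv_cancel₀ (Real.sqrt_pos.mpr (hpos x)).ne']

end BG
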