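import Pool.Agent.Helper771.BG.Defs
import Pool.Agent.Helper771.BG.P_gi_symm
import Pool.Agent.Helper771.BG.P_metric_compat

set_option linter.all false

open scoped BigOperators

namespace BG



theorem ric_symm_Dsum {n : ℕ} {A : Type} [CommRing A] [Algebra ℝ A] {D : Fin n → A → A}
    (hD : IsDer D) (i : Fin n) {ι : Type} (s : Finset ι) (f : ι → A) :
    D i (∑ a ∈ s, f a) = ∑ a ∈ s, D i (f a) :=
  map_sum (AddMonoidHom.mk' (D i) (hD.add i)) f s

theorem ric_symm_Dzero {n : ℕ} {A : Type} [CommRing A] [Algebra ℝ A] {D : Fin n → A → A}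
    (hD : IsDer D) (i : Fin n) : D i 0 = 0 :=
  map_zero (AddMonoidHom.mk' (D i) (hD.add i))

theorem ric_symm_Done {n : ℕ} {A : Type} [CommRing A] [Algebra ℝ A] {D : Fin n → A → A}
    (hD : IsDer D) (i : Fin n) : D i 1 = 0 := by
  have h1 := hD.mul i 1 1
  rw [mul_one, mul_one, one_mul] at h1
  exact left_eq_add.1 h1

theorem ric_symm_tr {n : ℕ} {A : Type} [CommRing A] [Algebra ℝ A] {D : Fin n → A → A}
    (hD : IsDer D) {g gi : Fin n → Fin n → A} (h : IsMetric g gi) (i j : Fin n) :
    D j (∑ k, chr D g gi k i k) = D i (∑ k, chr D g gi k j k) := by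
  classical
  obtain ⟨hgs, hgi⟩ := gi_symm h
  obtain ⟨hc1, hc2, hc3⟩ := metric_compat hD h
  let G : Matrix (Fin n) (Fin n) A := Matrix.of g
  let Gi : Matrix (Fin n) (Fin n) A := Matrix.of gi
  let M : Fin n → Matrix (Fin n) (Fin n) A := fun a => Matrix.of fun k l => D a (g k l)
  let E : Fin n → Matrix (Fin n) (Fin n) A := fun a => Matrix.of fun k l => D a (gi k l)
  let Cm : Fin n → Matrix (Fin n) (Fin n) A := fun a => Matrix.of fun k l => chr D g gi k a l
  have hGG : G * Gi = 1 := by
    ext k l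
    rw [Matrix.mul_apply, Matrix.one_apply]
    exact h.inv k l
  have hGG' : Gi * G = 1 := by
    ext k l
    rw [Matrix.mul_apply, Matrix.one_apply]
    exact hgi k l
  have hM : ∀ a, M a = (Cm a).transpose * G + G * Cm a := by
    intro a
    ext k l
    rw [Matrix.add_apply, Matrix.mul_apply, Matrix.mul_apply]
    have h1 := hc2 a k l
    change D a (g k l) = (∑ m, chr D g gi m a k * g m l) + ∑ m, g k m * chr D g gi m a l
    rw [h1]
    congr 1
    exact Finset.sum_congr rfl fun m _ => mul_comm _ _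
  have hT : ∀ a, (Gi * M a).trace = (∑ k, chr D g gi k a k) + ∑ k, chr D g gi k a k := by
    intro a
    have h1 : (Cm a).trace = ∑ k, chr D g gi k a k := rfl
    rw [hM a, Matrix.mul_add, Matrix.trace_add, ← Matrix.mul_assoc, ← Matrix.mul_assoc, hGG',
      Matrix.one_mul, Matrix.trace_mul_comm, ← Matrix.mul_assoc, hGG, Matrix.one_mul,
      Matrix.trace_transpose, h1]
  have hE : ∀ a, E a = -(Gi * M a * Gi) := by
    intro a
    have h1 : E a * G + Gi * M a = 0 := by
      ext k l
      rw [Matrix.add_apply, Matrix.mul_apply, Matrix.mul_apply, ← Finset.sum_add_distrib,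
        Matrix.zero_apply]
      change ∑ x, (D a (gi k x) * g x l + gi k x * D a (g x l)) = 0
      have h2 : ∑ x, (D a (gi k x) * g x l + gi k x * D a (g x l)) = D a (∑ x, gi k x * g x l) := by
        rw [ric_symm_Dsum hD]
        exact Finset.sum_congr rfl fun x _ => (hD.mul a _ _).symm
      rw [h2, hgi k l]
      split_ifs
      · exact ric_symm_Done hD a
      · exact ric_symm_Dzero hD a
    calc E a = E a * (G * Gi) := by rw [hGG, Matrix.mul_one]
      _ = (E a * G) * Gi := by rw [Matrix.mul_assoc]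
      _ = (-(Gi * M a)) * Gi := by rw [eq_neg_of_add_eq_zero_left h1]
      _ = -(Gi * M a * Gi) := by rw [Matrix.neg_mul]
  have hS : ∀ a b, (E b * M a).trace = (E a * M b).trace := by
    intro a b
    rw [hE, hE, Matrix.neg_mul, Matrix.neg_mul, Matrix.trace_neg, Matrix.trace_neg,
      Matrix.mul_assoc, Matrix.trace_mul_comm, ← Matrix.mul_assoc]
  have hDT : ∀ a b, D b ((Gi * M a).trace) = (E b * M a).trace
      + ∑ k, ∑ l, gi k l * D b (D a (g l k)) := by
    intro a b
    have e1 : (Gi * M a).trace = ∑ k, ∑ l, gi k l * D a (g l k) := by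
      simp only [Matrix.trace, Matrix.diag_apply, Matrix.mul_apply]
      rfl
    have e2 : (E b * M a).trace = ∑ k, ∑ l, D b (gi k l) * D a (g l k) := by
      simp only [Matrix.trace, Matrix.diag_apply, Matrix.mul_apply]
      rfl
    rw [e1, e2, ric_symm_Dsum hD, ← Finset.sum_add_distrib]
    refine Finset.sum_congr rfl fun k _ => ?_
    rw [ric_symm_Dsum hD, ← Finset.sum_add_distrib]
    exact Finset.sum_congr rfl fun l _ => hD.mul b _ _
  have hfin : D j ((Gi * M i).trace) = D i ((Gi * M j).trace) := by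
    rw [hDT, hDT, hS i j]
    congr 1
    refine Finset.sum_congr rfl fun k _ => Finset.sum_congr rfl fun l _ => ?_
    rw [hD.comm j i]
  rw [hT, hT, hD.add, hD.add] at hfin
  have h2 : ∀ x : A, (1 / 2 : ℝ) • (x + x) = x := by
    intro x
    rw [← two_smul ℝ x, smul_smul]
    norm_num
  rw [← h2 (D j (∑ k, chr D g gi k i k)), hfin, h2]

theorem ric_symm {n : ℕ} {A : Type} [CommRing A] [Algebra ℝ A] {D : Fin n → A → A}
    (hD : IsDer D) {g gi : Fin n → Fin n → A} (h : IsMetric g gi) (i j : Fin n) :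
    ric D g gi i j = ric D g gi j i := by
  have hc1 := (metric_compat hD h).1
  have htr := ric_symm_tr hD h i j
  rw [ric_symm_Dsum hD, ric_symm_Dsum hD] at htr
  unfold ric
  rw [Finset.sum_sub_distrib, Finset.sum_sub_distrib, htr]
  have e1 : ∑ k, D k (chr D g gi k i j) = ∑ k, D k (chr D g gi k j i) :=
    Finset.sum_congr rfl fun k _ => by rw [hc1 k i j]
  rw [e1]
  congr 1
  simp only [Finset.sum_sub_distrib]
  congr 1
  · refine Finset.sum_congr rfl fun k _ => Finset.sum_congr rfl fun l _ => ?_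
    rw [hc1 l i j]
  · rw [Finset.sum_comm]
    refine Finset.sum_congr rfl fun k _ => Finset.sum_congr rfl fun l _ => ?_
    rw [mul_comm]

end BG
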