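import Pool.Agent.Helper771.BG.Defs
import Pool.Agent.Helper771.BG.P_gi_symm
import Pool.Agent.Helper771.BG.P_metric_compat
import Pool.Agent.Helper771.BG.P_ric_symm

set_option linter.all false

open scoped BigOperators

namespace BG



theorem tRic_eval_aux {n : ℕ} {A : Type} [CommRing A] [Algebra ℝ A] {D : Fin n → A → A}
    (hD : IsDer D) {g gi : Fin n → Fin n → A} (h : IsMetric g gi) (I : Fin 2 → Fin n) :
    tRic.eval D g gi I = ric D g gi (I 0) (I 1) := by
  have h1 : tRic.eval D g gi I = ∑ a, ∑ b, gi a b * rm D g gi a (I 0) (I 1) b := rfl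
  have hchr := (metric_compat hD h).1
  have hinv := (gi_symm h).2
  rw [h1, ric_symm hD h]
  have key : ∀ X : Fin n → Fin n → A, (∑ a, ∑ b, gi a b * ∑ m, g b m * X a m) = ∑ a, X a a := by
    intro X
    refine Finset.sum_congr rfl fun a _ => ?_
    have h2 : (∑ b, gi a b * ∑ m, g b m * X a m) = ∑ m, (∑ b, gi a b * g b m) * X a m := by
      simp_rw [Finset.mul_sum, Finset.sum_mul]
      rw [Finset.sum_comm]
      refine Finset.sum_congr rfl fun m _ => Finset.sum_congr rfl fun b _ => ?_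
      ring
    rw [h2]
    simp_rw [hinv, ite_mul, one_mul, zero_mul]
    simp
  unfold rm
  rw [key (fun a m => D a (chr D g gi m (I 0) (I 1)) - D (I 0) (chr D g gi m a (I 1))
    + ∑ p, (chr D g gi m a p * chr D g gi p (I 0) (I 1) -
      chr D g gi m (I 0) p * chr D g gi p a (I 1)))]
  unfold ric
  rw [← Finset.sum_add_distrib]
  refine Finset.sum_congr rfl fun a _ => ?_
  rw [hchr a (I 1) (I 0), hchr a (I 1) a]
  congr 1
  refine Finset.sum_congr rfl fun l _ => ?_
  rw [hchr l (I 1) (I 0), hchr l (I 1) a]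

theorem tS_eval {n : ℕ} {A : Type} [CommRing A] [Algebra ℝ A] {D : Fin n → A → A}
    (hD : IsDer D) {g gi : Fin n → Fin n → A} (h : IsMetric g gi) (i : Fin 0 → Fin n) :
    (tRic2.eval D g gi i = ∑ a, ∑ b, ∑ c, ∑ d, gi a b * gi c d * ric D g gi a c * ric D g gi b d) ∧
    (∀ b : Fin n, tV.eval D g gi (fun _ => b) = D b (tRic2.eval D g gi i)) ∧
    (tS.eval D g gi i = ∑ a, ∑ b, gi a b * (D a (D b (tRic2.eval D g gi i))
      - ∑ k, chr D g gi k a b * D k (tRic2.eval D g gi i))) := by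
  have hsub : ∀ (f : (Fin 0 → Fin n) → A) (u v : Fin 0 → Fin n), f u = f v := fun f u v => by
    rw [Subsingleton.elim u v]
  have hcov : ∀ (f : (Fin 0 → Fin n) → A) (I : Fin 1 → Fin n),
      covD D g gi f I = D (I 0) (f i) := by
    intro f I
    unfold covD
    rw [Finset.univ_eq_empty, Finset.sum_empty, sub_zero, hsub f (Fin.tail I) i]
  refine ⟨?_, ?_, ?_⟩
  · have h1 : tRic2.eval D g gi i = ∑ a, ∑ b, gi a b * ∑ c, ∑ d, gi c d *
        (tRic.eval D g gi (fun p => (Fin.cons c (Fin.cons d (Fin.cons a (Fin.cons b i))) :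
            Fin 4 → Fin n) (Equiv.swap 1 2 (Fin.castAdd 2 p))) *
          tRic.eval D g gi (fun p => (Fin.cons c (Fin.cons d (Fin.cons a (Fin.cons b i))) :
            Fin 4 → Fin n) (Equiv.swap 1 2 (Fin.natAdd 2 p)))) := rfl
    rw [h1]
    refine Finset.sum_congr rfl fun a _ => Finset.sum_congr rfl fun b _ => ?_
    rw [Finset.mul_sum]
    refine Finset.sum_congr rfl fun c _ => ?_
    rw [Finset.mul_sum]
    refine Finset.sum_congr rfl fun d _ => ?_
    rw [tRic_eval_aux hD h, tRic_eval_aux hD h]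
    have f1 : (Equiv.swap 1 2 (Fin.castAdd 2 (0 : Fin 2)) : Fin (2 + 2)) = 0 := by decide
    have f2 : (Equiv.swap 1 2 (Fin.castAdd 2 (1 : Fin 2)) : Fin (2 + 2)) = 2 := by decide
    have f3 : (Equiv.swap 1 2 (Fin.natAdd 2 (0 : Fin 2)) : Fin (2 + 2)) = 1 := by decide
    have f4 : (Equiv.swap 1 2 (Fin.natAdd 2 (1 : Fin 2)) : Fin (2 + 2)) = 3 := by decide
    simp only [f1, f2, f3, f4]
    have g0 : (Fin.cons c (Fin.cons d (Fin.cons a (Fin.cons b i))) : Fin 4 → Fin n) 0 = c := rfl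
    have g1 : (Fin.cons c (Fin.cons d (Fin.cons a (Fin.cons b i))) : Fin 4 → Fin n) 1 = d := rfl
    have g2 : (Fin.cons c (Fin.cons d (Fin.cons a (Fin.cons b i))) : Fin 4 → Fin n) 2 = a := rfl
    have g3 : (Fin.cons c (Fin.cons d (Fin.cons a (Fin.cons b i))) : Fin 4 → Fin n) 3 = b := rfl
    rw [g0, g1, g2, g3, ric_symm hD h c a, ric_symm hD h d b]
    ring
  · intro b
    exact hcov _ _
  · have h1 : ∀ t : TF 0, (TF.contr (m := 0) (.nabla (.nabla t))).eval D g gi i =
        ∑ a, ∑ b, gi a b *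
          covD D g gi (covD D g gi (t.eval D g gi)) (Fin.cons a (Fin.cons b i)) :=
      fun t => by simp only [TF.eval]
    unfold tS
    rw [h1 tRic2]
    generalize tRic2.eval D g gi = f
    refine Finset.sum_congr rfl fun a _ => Finset.sum_congr rfl fun b _ => ?_
    congr 1
    have h3 : ∀ (F : (Fin 1 → Fin n) → A) (I : Fin 2 → Fin n), covD D g gi F I =
        D (I 0) (F (Fin.tail I)) - ∑ k, chr D g gi k (I 0) (I 1) *
          F (Function.update (Fin.tail I) 0 k) := by
      intro F I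
      unfold covD
      rw [Fin.sum_univ_one]
      rfl
    rw [h3, hcov]
    simp_rw [hcov]
    simp [Fin.tail]

end BG
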