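import Pool.Agent.Helper771.BG.Defs

set_option linter.all false

open scoped BigOperators

namespace BG



section
variable {n : ℕ} {A B : Type} [CommRing A] [Algebra ℝ A] [CommRing B] [Algebra ℝ B]
    {DA : Fin n → A → A} {DB : Fin n → B → B} {Rel : A → B → Prop}

theorem tr_zero (hR : RelHom DA DB Rel) : Rel 0 0 := by
  have := hR.smul 0 hR.one
  rwa [zero_smul, zero_smul] at this

theorem tr_neg (hR : RelHom DA DB Rel) {a : A} {b : B} (h : Rel a b) : Rel (-a) (-b) := by
  have := hR.smul (-1) h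
  rwa [neg_one_smul, neg_one_smul] at this

theorem tr_sub (hR : RelHom DA DB Rel) {a a' : A} {b b' : B} (h : Rel a b) (h' : Rel a' b') :
    Rel (a - a') (b - b') := by
  rw [sub_eq_add_neg, sub_eq_add_neg]
  exact hR.add h (tr_neg hR h')

theorem tr_sum (hR : RelHom DA DB Rel) {ι : Type} (s : Finset ι) (f : ι → A) (g : ι → B)
    (h : ∀ i ∈ s, Rel (f i) (g i)) : Rel (∑ i ∈ s, f i) (∑ i ∈ s, g i) := by
  classical
  induction s using Finset.induction_on with
  | empty => rw [Finset.sum_empty, Finset.sum_empty]; exact tr_zero hR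
  | insert a s ha ih =>
    rw [Finset.sum_insert ha, Finset.sum_insert ha]
    exact hR.add (h a (Finset.mem_insert_self a s))
      (ih fun i hi => h i (Finset.mem_insert_of_mem hi))

theorem tr_chr (hR : RelHom DA DB Rel)
    {gA giA : Fin n → Fin n → A} {gB giB : Fin n → Fin n → B}
    (hg : ∀ i j, Rel (gA i j) (gB i j)) (hgi : ∀ i j, Rel (giA i j) (giB i j)) (k i j : Fin n) :
    Rel (chr DA gA giA k i j) (chr DB gB giB k i j) := by
  unfold chr
  refine hR.smul _ (tr_sum hR _ _ _ fun l _ => hR.mul (hgi _ _) ?_)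
  exact tr_sub hR (hR.add (hR.der _ (hg _ _)) (hR.der _ (hg _ _))) (hR.der _ (hg _ _))

theorem tr_rm (hR : RelHom DA DB Rel)
    {gA giA : Fin n → Fin n → A} {gB giB : Fin n → Fin n → B}
    (hg : ∀ i j, Rel (gA i j) (gB i j)) (hgi : ∀ i j, Rel (giA i j) (giB i j))
    (i j k l : Fin n) : Rel (rm DA gA giA i j k l) (rm DB gB giB i j k l) := by
  unfold rm
  refine tr_sum hR _ _ _ fun m _ => hR.mul (hg _ _) (hR.add ?_ ?_)
  · exact tr_sub hR (hR.der _ (tr_chr hR hg hgi _ _ _)) (hR.der _ (tr_chr hR hg hgi _ _ _))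
  · refine tr_sum hR _ _ _ fun p _ => tr_sub hR ?_ ?_
    · exact hR.mul (tr_chr hR hg hgi _ _ _) (tr_chr hR hg hgi _ _ _)
    · exact hR.mul (tr_chr hR hg hgi _ _ _) (tr_chr hR hg hgi _ _ _)

theorem tr_covD (hR : RelHom DA DB Rel)
    {gA giA : Fin n → Fin n → A} {gB giB : Fin n → Fin n → B}
    (hg : ∀ i j, Rel (gA i j) (gB i j)) (hgi : ∀ i j, Rel (giA i j) (giB i j)) {m : ℕ}
    (TA : (Fin m → Fin n) → A) (TB : (Fin m → Fin n) → B) (hT : ∀ i, Rel (TA i) (TB i))
    (i : Fin (m + 1) → Fin n) : Rel (covD DA gA giA TA i) (covD DB gB giB TB i) := by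
  unfold covD
  refine tr_sub hR (hR.der _ (hT _)) ?_
  exact tr_sum hR _ _ _ fun p _ => tr_sum hR _ _ _ fun k _ =>
    hR.mul (tr_chr hR hg hgi _ _ _) (hT _)

end

theorem tf_rel {n : ℕ} {A B : Type} [CommRing A] [Algebra ℝ A] [CommRing B] [Algebra ℝ B]
    {DA : Fin n → A → A} {DB : Fin n → B → B} {Rel : A → B → Prop} (hR : RelHom DA DB Rel)
    {gA giA : Fin n → Fin n → A} {gB giB : Fin n → Fin n → B}
    (hg : ∀ i j, Rel (gA i j) (gB i j)) (hgi : ∀ i j, Rel (giA i j) (giB i j))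
    {m : ℕ} (t : TF m) (i : Fin m → Fin n) :
    Rel (t.eval DA gA giA i) (t.eval DB gB giB i) := by
  induction t with
  | met => exact hg _ _
  | riem => exact tr_rm hR hg hgi _ _ _ _
  | add s t ihs iht => exact hR.add (ihs i) (iht i)
  | smul r t ih => exact hR.smul r (ih i)
  | tmul s t ihs iht => exact hR.mul (ihs _) (iht _)
  | perm σ t ih => exact ih _
  | contr t ih =>
    exact tr_sum hR _ _ _ fun a _ => tr_sum hR _ _ _ fun b _ => hR.mul (hgi _ _) (ih _)
  | nabla t ih => exact tr_covD hR hg hgi _ _ ih i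

end BG
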