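import Pool.Agent.Helper771.BG.Defs
import Pool.Agent.Helper771.BG.P_tf_rel
import Pool.Agent.Helper771.BG.P_sm_der
import Pool.Agent.Helper771.BG.P_sm_metric
import Pool.Agent.Helper771.BG.P_jacobi
import Pool.Agent.Helper771.BG.P_tS_eval
import Pool.Agent.Helper771.BG.P_div_formula
import Pool.Agent.Helper771.BG.P_ric_conf

set_option linter.all false

open scoped BigOperators

namespace BG



theorem h400_sm {φ : ℝ → ℝ} (hφ : ContDiff ℝ (⊤ : ℕ∞) φ) : ContDiff ℝ (⊤ : ℕ∞) (deriv φ) :=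
  (contDiff_infty_iff_deriv.mp hφ).2

/-- a smooth function of the variable `x 0`. -/
noncomputable def mk0 (φ : ℝ → ℝ) (hφ : ContDiff ℝ (⊤ : ℕ∞) φ) : Sm 6 :=
  ⟨fun x => φ (x 0), hφ.comp (contDiff_apply ℝ ℝ (0 : Fin 6))⟩

theorem mk0_coe (φ : ℝ → ℝ) (hφ : ContDiff ℝ (⊤ : ℕ∞) φ) :
    ((mk0 φ hφ : Sm 6) : (Fin 6 → ℝ) → ℝ) = fun x => φ (x 0) := rfl

theorem mk0_congr {φ ψ : ℝ → ℝ} (h : φ = ψ) (hφ : ContDiff ℝ (⊤ : ℕ∞) φ)
    (hψ : ContDiff ℝ (⊤ : ℕ∞) ψ) : mk0 φ hφ = mk0 ψ hψ := by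
  subst h; rfl

theorem pd_mk0 (φ : ℝ → ℝ) (hφ : ContDiff ℝ (⊤ : ℕ∞) φ) (i : Fin 6) (x : Fin 6 → ℝ) :
    pd i (fun x : Fin 6 → ℝ => φ (x 0)) x = if i = 0 then deriv φ (x 0) else 0 := by
  have hd : DifferentiableAt ℝ φ (x 0) := (hφ.differentiable (by simp)) (x 0)
  have h : HasFDerivAt (fun x : Fin 6 → ℝ => φ (x 0))
      ((deriv φ (x 0)) • (ContinuousLinearMap.proj (R := ℝ) (φ := fun _ : Fin 6 => ℝ) 0)) x :=
    hd.hasDerivAt.comp_hasFDerivAt x (hasFDerivAt_apply (0 : Fin 6) x)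
  unfold pd
  rw [h.fderiv]
  by_cases hi : i = 0
  · subst hi
    simp
  · rw [if_neg hi]
    simp [Pi.single_apply, Ne.symm hi]

theorem dens_w {w : ℝ → ℝ} (hw : ContDiff ℝ (⊤ : ℕ∞) w) (x : Fin 6 → ℝ) :
    tS.form (conf (fun y : Fin 6 → ℝ => w (y 0)) (fun _ => 1)) x = sf w (x 0) := by
  obtain ⟨D, hD, hDp⟩ := sm_der 6
  have hD0 : ∀ (φ : ℝ → ℝ) (hφ : ContDiff ℝ (⊤ : ℕ∞) φ),
      D 0 (mk0 φ hφ) = mk0 (deriv φ) (h400_sm hφ) := by
    intro φ hφ
    apply Subtype.ext
    rw [hDp, mk0_coe, mk0_coe]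
    funext y
    rw [pd_mk0 φ hφ, if_pos rfl]
  have hDi : ∀ i : Fin 6, i ≠ 0 → ∀ (φ : ℝ → ℝ) (hφ : ContDiff ℝ (⊤ : ℕ∞) φ),
      D i (mk0 φ hφ) = 0 := by
    intro i hi φ hφ
    apply Subtype.ext
    rw [hDp, mk0_coe]
    funext y
    rw [pd_mk0 φ hφ, if_neg hi]
    rfl
  have hD00 : ∀ i, D i 0 = 0 := by
    intro i
    have h := hD.smul i 0 0
    rwa [zero_smul, zero_smul] at h
  have hw1 : ContDiff ℝ (⊤ : ℕ∞) (deriv w) := h400_sm hw
  have hw2 : ContDiff ℝ (⊤ : ℕ∞) (deriv (deriv w)) := h400_sm hw1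
  have hexp : ∀ c : ℝ, ContDiff ℝ (⊤ : ℕ∞) (fun t => Real.exp (c * w t)) := by
    intro c
    exact Real.contDiff_exp.comp (contDiff_const.mul hw)
  obtain ⟨W, hW⟩ : ∃ W : Sm 6, W = mk0 w hw := ⟨_, rfl⟩
  obtain ⟨W1, hW1⟩ : ∃ W : Sm 6, W = mk0 (deriv w) hw1 := ⟨_, rfl⟩
  obtain ⟨W2, hW2⟩ : ∃ W : Sm 6, W = mk0 (deriv (deriv w)) hw2 := ⟨_, rfl⟩
  obtain ⟨E, hE⟩ : ∃ W : Sm 6, W = mk0 _ (hexp 2) := ⟨_, rfl⟩
  obtain ⟨Ei, hEi⟩ : ∃ W : Sm 6, W = mk0 _ (hexp (-2)) := ⟨_, rfl⟩
  have hDW : ∀ a, D a W = if a = 0 then W1 else 0 := by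
    intro a
    by_cases ha : a = 0
    · rw [if_pos ha, ha, hW, hD0, hW1]
    · rw [if_neg ha, hW, hDi a ha]
  have hDW1 : ∀ a, D a W1 = if a = 0 then W2 else 0 := by
    intro a
    by_cases ha : a = 0
    · rw [if_pos ha, ha, hW1, hD0, hW2]
    · rw [if_neg ha, hW1, hDi a ha]
  have hderiv : ∀ c t, deriv (fun t => Real.exp (c * w t)) t = c * deriv w t * Real.exp (c * w t) := by
    intro c t
    have hd : DifferentiableAt ℝ w t := (hw.differentiable (by simp)) t
    have h1 : HasDerivAt (fun t => Real.exp (c * w t)) (Real.exp (c * w t) * (c * deriv w t)) t :=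
      (hd.hasDerivAt.const_mul c).exp
    rw [h1.deriv]
    ring
  have hDE : ∀ a, D a E = 2 * D a W * E := by
    intro a
    rw [hDW]
    by_cases ha : a = 0
    · rw [if_pos ha, ha, hE, hD0, hW1]
      apply Subtype.ext
      funext y
      show deriv (fun t => Real.exp (2 * w t)) (y 0) = 2 * deriv w (y 0) * Real.exp (2 * w (y 0))
      rw [hderiv]
    · rw [if_neg ha, hE, hDi a ha]
      ring
  have hDEi : ∀ a, D a Ei = if a = 0 then -2 * W1 * Ei else 0 := by
    intro a
    by_cases ha : a = 0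
    · rw [if_pos ha, ha, hEi, hD0, hW1]
      apply Subtype.ext
      funext y
      show deriv (fun t => Real.exp (-2 * w t)) (y 0) = -2 * deriv w (y 0) * Real.exp (-2 * w (y 0))
      rw [hderiv]
    · rw [if_neg ha, hEi, hDi a ha]
  have hEE : E * Ei = 1 := by
    rw [hE, hEi]
    apply Subtype.ext
    funext y
    show Real.exp (2 * w (y 0)) * Real.exp (-2 * w (y 0)) = 1
    rw [← Real.exp_add]
    have : 2 * w (y 0) + -2 * w (y 0) = 0 := by ring
    rw [this, Real.exp_zero]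
  have hmet : IsMetric (fun i j : Fin 6 => if i = j then E else 0)
      (fun i j : Fin 6 => if i = j then Ei else 0) := by
    refine ⟨?_, ?_⟩
    · intro i j
      by_cases hij : i = j
      · rw [if_pos hij, if_pos hij.symm]
      · rw [if_neg hij, if_neg (Ne.symm hij)]
    · intro i j
      rw [Finset.sum_eq_single i]
      · by_cases hij : i = j
        · rw [if_pos rfl, if_pos hij, if_pos hij, hEE]
        · rw [if_pos rfl, if_neg hij, if_neg hij, mul_zero]
      · intro k _ hk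
        rw [if_neg (Ne.symm hk), zero_mul]
      · intro h
        exact absurd (Finset.mem_univ i) h
  -- the volume element
  have hvv : E ^ 3 * E ^ 3 = (Matrix.of (fun i j : Fin 6 => if i = j then E else 0)).det := by
    have h1 : Matrix.of (fun i j : Fin 6 => if i = j then E else 0) =
        Matrix.diagonal (fun _ : Fin 6 => E) := by
      ext i j
      rw [Matrix.of_apply, Matrix.diagonal_apply]
    rw [h1, Matrix.det_diagonal, Finset.prod_const, Finset.card_univ, Fintype.card_fin]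
    ring
  have hvi : E ^ 3 * Ei ^ 3 = 1 := by
    rw [← mul_pow, hEE, one_pow]
  have hjac := jacobi hD hmet (E ^ 3) (Ei ^ 3) hvv hvi
  obtain ⟨hF, -, hS⟩ := tS_eval hD hmet (fun p : Fin 0 => p.elim0)
  have hdiv := div_formula hD hmet (E ^ 3)
    (tRic2.eval D (fun i j : Fin 6 => if i = j then E else 0)
      (fun i j : Fin 6 => if i = j then Ei else 0) (fun p : Fin 0 => p.elim0)) hjac
  rw [← hS] at hdiv
  -- the Ricci tensor
  have hric : ∀ i j : Fin 6, ric D (fun i j => if i = j then E else 0)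
      (fun i j => if i = j then Ei else 0) i j =
      if i = j then (if i = 0 then -5 * W2 else -(W2 + 4 * W1 ^ 2)) else 0 := by
    intro i j
    rw [ric_conf hD W E Ei hEE hDE]
    have hs1 : ∑ k, D k (D k W) = W2 := by
      rw [Finset.sum_eq_single 0]
      · rw [hDW, if_pos rfl, hDW1, if_pos rfl]
      · intro k _ hk
        rw [hDW, if_neg hk, hD00]
      · intro h
        exact absurd (Finset.mem_univ _) h
    have hs2 : ∑ k, D k W ^ 2 = W1 ^ 2 := by
      rw [Finset.sum_eq_single 0]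
      · rw [hDW, if_pos rfl]
      · intro k _ hk
        rw [hDW, if_neg hk]
        ring
      · intro h
        exact absurd (Finset.mem_univ _) h
    rw [hs1, hs2, hDW j, hDW i]
    by_cases hij : i = j
    · subst hij
      rw [if_pos rfl, if_pos rfl]
      by_cases hi : i = 0
      · rw [if_pos hi, if_pos hi, hDW1, if_pos hi]
        ring
      · rw [if_neg hi, if_neg hi, hD00]
        ring
    · rw [if_neg hij, if_neg hij]
      by_cases hi : i = 0
      · have hj : j ≠ 0 := fun h => hij (hi.trans h.symm)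
        rw [if_neg hj, hD00]
        ring
      · rw [if_neg hi]
        by_cases hj : j = 0
        · rw [if_pos hj, hDW1, if_neg hi]
          ring
        · rw [if_neg hj, hD00]
          ring
  have hF2 : tRic2.eval D (fun i j : Fin 6 => if i = j then E else 0)
      (fun i j : Fin 6 => if i = j then Ei else 0) (fun p : Fin 0 => p.elim0) =
      Ei ^ 2 * (30 * W2 ^ 2 + 40 * W2 * W1 ^ 2 + 80 * W1 ^ 4) := by
    rw [hF]
    have h1 : ∀ a : Fin 6, (∑ b : Fin 6, ∑ c : Fin 6, ∑ d : Fin 6,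
        (if a = b then Ei else 0) * (if c = d then Ei else 0) *
        ric D (fun i j => if i = j then E else 0) (fun i j => if i = j then Ei else 0) a c *
        ric D (fun i j => if i = j then E else 0) (fun i j => if i = j then Ei else 0) b d) =
        Ei ^ 2 * (if a = 0 then -5 * W2 else -(W2 + 4 * W1 ^ 2)) ^ 2 := by
      intro a
      rw [Finset.sum_eq_single a]
      · rw [Finset.sum_eq_single a]
        · rw [Finset.sum_eq_single a]
          · rw [if_pos rfl, hric, if_pos rfl]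
            ring
          · intro d _ hd
            rw [if_neg (Ne.symm hd)]
            ring
          · intro h
            exact absurd (Finset.mem_univ _) h
        · intro c _ hc
          apply Finset.sum_eq_zero
          intro d _
          rw [hric a c, if_neg (Ne.symm hc)]
          ring
        · intro h
          exact absurd (Finset.mem_univ _) h
      · intro b _ hb
        apply Finset.sum_eq_zero
        intro c _
        apply Finset.sum_eq_zero
        intro d _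
        rw [if_neg (Ne.symm hb)]
        ring
      · intro h
        exact absurd (Finset.mem_univ _) h
    rw [Finset.sum_congr rfl (fun a _ => h1 a)]
    rw [Fin.sum_univ_six]
    rw [if_pos rfl, if_neg (by decide), if_neg (by decide), if_neg (by decide), if_neg (by decide),
      if_neg (by decide)]
    ring
  have hNs : ContDiff ℝ (⊤ : ℕ∞) (Nf w) := by
    unfold Nf
    exact ((contDiff_const.mul (hw2.pow 2)).add ((contDiff_const.mul hw2).mul (hw1.pow 2))).add
      (contDiff_const.mul (hw1.pow 4))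
  have hN : (30 * W2 ^ 2 + 40 * W2 * W1 ^ 2 + 80 * W1 ^ 4 : Sm 6) = mk0 (Nf w) hNs := by
    rw [hW1, hW2]
    rfl
  have hF3 : tRic2.eval D (fun i j : Fin 6 => if i = j then E else 0)
      (fun i j : Fin 6 => if i = j then Ei else 0) (fun p : Fin 0 => p.elim0) =
      Ei ^ 2 * mk0 (Nf w) hNs := by rw [hF2, hN]
  have hDN0 : D 0 (mk0 (Nf w) hNs) = mk0 (deriv (Nf w)) (h400_sm hNs) := hD0 _ _
  have hDF0 : D 0 (Ei ^ 2 * mk0 (Nf w) hNs) = Ei ^ 2 * (mk0 (deriv (Nf w)) (h400_sm hNs) -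
      4 * W1 * mk0 (Nf w) hNs) := by
    rw [hD.mul, pow_two, hD.mul, hDEi, if_pos rfl, hDN0]
    ring
  have hDFi : ∀ i : Fin 6, i ≠ 0 → D i (Ei ^ 2 * mk0 (Nf w) hNs) = 0 := by
    intro i hi
    rw [hD.mul, pow_two, hD.mul, hDEi, if_neg hi, hDi i hi]
    ring
  have hMs : ContDiff ℝ (⊤ : ℕ∞) (fun u => deriv (Nf w) u - 4 * deriv w u * Nf w u) :=
    (h400_sm hNs).sub ((contDiff_const.mul hw1).mul hNs)
  have hM : (mk0 (deriv (Nf w)) (h400_sm hNs) - 4 * W1 * mk0 (Nf w) hNs : Sm 6) =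
      mk0 (fun u => deriv (Nf w) u - 4 * deriv w u * Nf w u) hMs := by
    rw [hW1]
    rfl
  have hfin : E ^ 3 * tS.eval D (fun i j : Fin 6 => if i = j then E else 0)
      (fun i j : Fin 6 => if i = j then Ei else 0) (fun p : Fin 0 => p.elim0) =
      mk0 (deriv (fun u => deriv (Nf w) u - 4 * deriv w u * Nf w u)) (h400_sm hMs) := by
    rw [hdiv, hF3, Finset.sum_eq_single 0]
    · rw [Finset.sum_eq_single 0]
      · rw [if_pos rfl, hDF0]
        have h7 : E ^ 3 * (Ei * (Ei ^ 2 * (mk0 (deriv (Nf w)) (h400_sm hNs) -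
            4 * W1 * mk0 (Nf w) hNs))) = mk0 (deriv (Nf w)) (h400_sm hNs) -
            4 * W1 * mk0 (Nf w) hNs := by
          linear_combination (mk0 (deriv (Nf w)) (h400_sm hNs) - 4 * W1 * mk0 (Nf w) hNs) * hvi
        rw [h7, hM, hD0]
      · intro b _ hb
        rw [if_neg (Ne.symm hb), zero_mul]
      · intro h
        exact absurd (Finset.mem_univ _) h
    · intro a _ ha
      have h0 : (∑ b : Fin 6, (if a = b then Ei else 0) * D b (Ei ^ 2 * mk0 (Nf w) hNs)) = 0 := by
        apply Finset.sum_eq_zero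
        intro b _
        by_cases hab : a = b
        · rw [← hab, hDFi a ha, mul_zero]
        · rw [if_neg hab, zero_mul]
      rw [h0, mul_zero, hD00]
    · intro h
      exact absurd (Finset.mem_univ _) h
  -- transfer
  have hR : RelHom D (pd : Fin 6 → ((Fin 6 → ℝ) → ℝ) → ((Fin 6 → ℝ) → ℝ))
      (fun (a : Sm 6) (b : (Fin 6 → ℝ) → ℝ) => (a : (Fin 6 → ℝ) → ℝ) = b) := by
    refine ⟨rfl, ?_, ?_, ?_, ?_⟩
    · intro a a' b b' h h'
      rw [← h, ← h']
      rfl
    · intro a a' b b' h h'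
      rw [← h, ← h']
      rfl
    · intro r a b h
      rw [← h]
      rfl
    · intro i a b h
      rw [← h]
      exact hDp i a
  have htf := tf_rel hR (gA := fun i j : Fin 6 => if i = j then E else 0)
    (giA := fun i j : Fin 6 => if i = j then Ei else 0)
    (gB := fun i j y => conf (fun y : Fin 6 → ℝ => w (y 0)) (fun _ => 1) y i j)
    (giB := fun i j y => (conf (fun y : Fin 6 → ℝ => w (y 0)) (fun _ => 1) y)⁻¹ i j)
    (by
      intro i j
      funext y
      show (((if i = j then E else 0 : Sm 6)) : (Fin 6 → ℝ) → ℝ) y =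
        Real.exp (2 * w (y 0)) • ((1 : Matrix (Fin 6) (Fin 6) ℝ) i j)
      rw [Matrix.one_apply]
      by_cases hij : i = j
      · rw [if_pos hij, if_pos hij, hE, smul_eq_mul, mul_one]
        rfl
      · rw [if_neg hij, if_neg hij, smul_zero]
        rfl)
    (by
      intro i j
      funext y
      have hinv : (conf (fun y : Fin 6 → ℝ => w (y 0)) (fun _ => 1) y)⁻¹ =
          Real.exp (-2 * w (y 0)) • (1 : Matrix (Fin 6) (Fin 6) ℝ) := by
        apply Matrix.inv_eq_right_inv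
        unfold conf
        rw [Matrix.smul_mul, Matrix.one_mul, smul_smul, ← Real.exp_add]
        have : 2 * w (y 0) + -2 * w (y 0) = 0 := by ring
        rw [this, Real.exp_zero, one_smul]
      rw [hinv, Matrix.smul_apply, Matrix.one_apply]
      by_cases hij : i = j
      · rw [if_pos hij, if_pos hij, hEi, smul_eq_mul, mul_one]
        rfl
      · rw [if_neg hij, if_neg hij, smul_zero]
        rfl)
    tS (fun p : Fin 0 => p.elim0)
  unfold TF.form TF.val
  rw [← htf]
  have hdet : Real.sqrt (conf (fun y : Fin 6 → ℝ => w (y 0)) (fun _ => 1) x).det =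
      ((E ^ 3 : Sm 6) : (Fin 6 → ℝ) → ℝ) x := by
    have h1 : ((E ^ 3 : Sm 6) : (Fin 6 → ℝ) → ℝ) x = Real.exp (2 * w (x 0)) ^ 3 := by
      rw [hE]
      rfl
    rw [h1]
    unfold conf
    rw [Matrix.det_smul, Matrix.det_one, mul_one, Fintype.card_fin]
    have h2 : Real.exp (2 * w (x 0)) ^ 6 = (Real.exp (2 * w (x 0)) ^ 3) ^ 2 := by ring
    rw [h2, Real.sqrt_sq (by positivity)]
  rw [hdet]
  have h9 := congrArg (fun f : Sm 6 => (f : (Fin 6 → ℝ) → ℝ) x) hfin
  exact h9

end BG
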