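import Pool.Agent.Helper771.BG.Defs

set_option linter.all false

open scoped BigOperators

namespace BG



theorem flat_met (n : ℕ) : IsMet (n := n) (fun _ => 1) ∧
    Per (n := n) (fun _ => (1 : Matrix (Fin n) (Fin n) ℝ)) := by
  refine ⟨⟨fun i j => contDiff_const, fun x => Matrix.PosDef.one⟩, fun x z => rfl⟩

end BG
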