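import Pool.Agent.Helper771.BG.Defs
import Pool.Agent.Helper771.BG.P_tf_rel
import Pool.Agent.Helper771.BG.P_sm_der
import Pool.Agent.Helper771.BG.P_sm_metric

set_option linter.all false

open scoped BigOperators

namespace BG



theorem form_smooth {n : ℕ} (t : TF 0) {g : (Fin n → ℝ) → Matrix (Fin n) (Fin n) ℝ}
    (hg : IsMet g) : ContDiff ℝ (⊤ : ℕ∞) (t.form g) := by
  obtain ⟨D, hD, hDpd⟩ := sm_der n
  obtain ⟨G, Gi, v, vi, hM, hG, hGi, hv, _, _⟩ := sm_metric hg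
  have hR : RelHom D pd (fun (a : Sm n) (f : (Fin n → ℝ) → ℝ) => (a : (Fin n → ℝ) → ℝ) = f) := by
    refine ⟨rfl, ?_, ?_, ?_, ?_⟩
    · rintro a a' b b' rfl rfl; rfl
    · rintro a a' b b' rfl rfl; rfl
    · rintro r a b rfl; rfl
    · rintro i a b rfl; exact hDpd i a
  have h := tf_rel hR (gB := fun i j y => g y i j) (giB := fun i j y => (g y)⁻¹ i j) hG hGi t
    (fun p => p.elim0)
  have h' : ((t.eval D G Gi (fun p => p.elim0) : Sm n) : (Fin n → ℝ) → ℝ) =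
      t.eval pd (fun i j y => g y i j) (fun i j y => (g y)⁻¹ i j) (fun p => p.elim0) := h
  have h1 : ContDiff ℝ (⊤ : ℕ∞) (v : (Fin n → ℝ) → ℝ) := v.2
  have h2 : ContDiff ℝ (⊤ : ℕ∞)
      ((t.eval D G Gi (fun p => p.elim0) : Sm n) : (Fin n → ℝ) → ℝ) :=
    (t.eval D G Gi (fun p => p.elim0)).2
  rw [hv] at h1
  rw [h'] at h2
  exact h1.mul h2

end BG
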