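import Pool.Agent.Helper771.BG.Defs

set_option linter.all false

open scoped BigOperators

namespace BG



theorem ip_cd {f : ℝ → ℝ} (hf : ContDiff ℝ (⊤ : ℕ∞) f) : ContDiff ℝ (⊤ : ℕ∞) (deriv f) :=
  (contDiff_infty_iff_deriv.1 hf).2

theorem ip_per {f : ℝ → ℝ} (hf : ∀ t, f (t + 1) = f t) : ∀ t, deriv f (t + 1) = deriv f t := by
  intro t
  have h := deriv_comp_add_const f 1 t
  have e : (fun x => f (x + 1)) = f := funext hf
  rw [e] at h
  exact h.symm

theorem ip_ibp {f g : ℝ → ℝ} (hf : ContDiff ℝ (⊤ : ℕ∞) f) (hg : ContDiff ℝ (⊤ : ℕ∞) g)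
    (pf : ∀ t, f (t + 1) = f t) (pg : ∀ t, g (t + 1) = g t) :
    (∫ t in (0:ℝ)..1, f t * deriv g t) = - ∫ t in (0:ℝ)..1, deriv f t * g t := by
  have hf' : Continuous (deriv f) := (ip_cd hf).continuous
  have hg' : Continuous (deriv g) := (ip_cd hg).continuous
  have df : Differentiable ℝ f := hf.differentiable (by simp)
  have dg : Differentiable ℝ g := hg.differentiable (by simp)
  rw [intervalIntegral.integral_mul_deriv_eq_deriv_mul (u := f) (v := g) (u' := deriv f)
    (v' := deriv g) (fun x _ => (df x).hasDerivAt) (fun x _ => (dg x).hasDerivAt)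
    (hf'.intervalIntegrable _ _) (hg'.intervalIntegrable _ _)]
  have e1 : f 1 = f 0 := by have := pf 0; rwa [zero_add] at this
  have e2 : g 1 = g 0 := by have := pg 0; rwa [zero_add] at this
  rw [e1, e2]
  ring

theorem int_parts (w φ : ℝ → ℝ) (hw : ContDiff ℝ (⊤ : ℕ∞) w) (hφ : ContDiff ℝ (⊤ : ℕ∞) φ)
    (pw : ∀ t, w (t + 1) = w t) (pφ : ∀ t, φ (t + 1) = φ t) :
    (∫ t in (0:ℝ)..1, φ t * sf w t)
      = ∫ t in (0:ℝ)..1, (deriv (deriv φ) t * Nf w t + 4 * deriv φ t * deriv w t * Nf w t) := by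
  have w1 := ip_cd hw
  have w2 := ip_cd w1
  have p1 := ip_per pw
  have p2 := ip_per p1
  have hN : ContDiff ℝ (⊤ : ℕ∞) (Nf w) := by
    unfold Nf
    exact ((contDiff_const.mul (w2.pow 2)).add ((contDiff_const.mul w2).mul (w1.pow 2))).add
      (contDiff_const.mul (w1.pow 4))
  have pN : ∀ t, Nf w (t + 1) = Nf w t := by
    intro t
    unfold Nf
    rw [p1, p2]
  have hM : ContDiff ℝ (⊤ : ℕ∞) (fun u => deriv (Nf w) u - 4 * deriv w u * Nf w u) :=
    (ip_cd hN).sub ((contDiff_const.mul w1).mul hN)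
  have pM : ∀ t, (fun u => deriv (Nf w) u - 4 * deriv w u * Nf w u) (t + 1) =
      (fun u => deriv (Nf w) u - 4 * deriv w u * Nf w u) t := by
    intro t
    show deriv (Nf w) (t + 1) - 4 * deriv w (t + 1) * Nf w (t + 1) = _
    rw [ip_per pN, p1, pN]
  have h1 := ip_ibp hφ hM pφ pM
  have h2 := ip_ibp (ip_cd hφ) hN (ip_per pφ) pN
  have e1 : (∫ t in (0:ℝ)..1, φ t * sf w t) =
      ∫ t in (0:ℝ)..1, φ t * deriv (fun u => deriv (Nf w) u - 4 * deriv w u * Nf w u) t := rfl
  have c1 : Continuous (deriv φ) := (ip_cd hφ).continuous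
  have c2 : Continuous (deriv (deriv φ)) := (ip_cd (ip_cd hφ)).continuous
  have c3 : Continuous (Nf w) := hN.continuous
  have c4 : Continuous (deriv (Nf w)) := (ip_cd hN).continuous
  have c5 : Continuous (deriv w) := w1.continuous
  rw [e1, h1]
  have e2 : ∀ t, deriv φ t * (deriv (Nf w) t - 4 * deriv w t * Nf w t) =
      deriv φ t * deriv (Nf w) t - 4 * deriv φ t * deriv w t * Nf w t := by intro t; ring
  simp_rw [e2]
  have i1 : Continuous fun t => deriv φ t * deriv (Nf w) t := c1.mul c4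
  have i2 : Continuous fun t => 4 * deriv φ t * deriv w t * Nf w t :=
    ((continuous_const.mul c1).mul c5).mul c3
  have i3 : Continuous fun t => deriv (deriv φ) t * Nf w t := c2.mul c3
  rw [intervalIntegral.integral_sub (i1.intervalIntegrable _ _) (i2.intervalIntegrable _ _),
    intervalIntegral.integral_add (i3.intervalIntegrable _ _) (i2.intervalIntegrable _ _), h2]
  ring

end BG
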