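import Pool.Agent.Helper771.BG.Defs

set_option linter.all false

open scoped BigOperators

namespace BG



theorem mixed_eval_aux (p : Polynomial (Polynomial ℝ)) (a b : ℝ) :
    (p.eval (Polynomial.C a)).eval b =
      ∑ i ∈ Finset.range (p.natDegree + 1), (p.coeff i).eval b * a ^ i := by
  rw [Polynomial.eval_eq_sum_range (p := p), Polynomial.eval_finset_sum]
  simp

theorem mixed_pi_aux (f : ℝ → ℝ → ℝ) (p : Polynomial (Polynomial ℝ))
    (hp : ∀ a b, HasDerivAt (fun a => f a b) ((p.eval (Polynomial.C a)).eval b) a) (a b : ℝ) :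
    f a b = f 0 b + ∑ i ∈ Finset.range (p.natDegree + 1),
      (p.coeff i).eval b * (a ^ (i + 1) / ((i : ℝ) + 1)) := by
  have h1 : ∀ a, HasDerivAt (fun a => f a b - ∑ i ∈ Finset.range (p.natDegree + 1),
      (p.coeff i).eval b * (a ^ (i + 1) / ((i : ℝ) + 1))) 0 a := by
    intro a
    have h2 : HasDerivAt (fun a : ℝ => ∑ i ∈ Finset.range (p.natDegree + 1),
      (p.coeff i).eval b * (a ^ (i + 1) / ((i : ℝ) + 1)))
      (∑ i ∈ Finset.range (p.natDegree + 1), (p.coeff i).eval b * a ^ i) a := by
      refine HasDerivAt.fun_sum fun i _ => ?_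
      refine HasDerivAt.const_mul _ ?_
      have h3 := (hasDerivAt_pow (i + 1) a).div_const ((i : ℝ) + 1)
      have h4 : ((i : ℝ) + 1) ≠ 0 := by positivity
      convert h3 using 1
      push_cast
      field_simp
    have h5 := (hp a b).sub h2
    rw [mixed_eval_aux, sub_self] at h5
    exact h5
  have h6 := is_const_of_deriv_eq_zero (fun a => (h1 a).differentiableAt)
    (fun a => (h1 a).deriv) a 0
  have h7 : ∑ i ∈ Finset.range (p.natDegree + 1),
      (p.coeff i).eval b * ((0 : ℝ) ^ (i + 1) / ((i : ℝ) + 1)) = 0 := by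
    apply Finset.sum_eq_zero
    intro i _
    simp
  simp only [h7] at h6
  linarith

theorem mixed (f : ℝ → ℝ → ℝ) (p q : Polynomial (Polynomial ℝ))
    (hp : ∀ a b, HasDerivAt (fun a => f a b) ((p.eval (Polynomial.C a)).eval b) a)
    (hq : ∀ a b, HasDerivAt (fun b => f a b) ((q.eval (Polynomial.C a)).eval b) b) :
    (p.coeff 0).coeff 1 = (q.coeff 1).coeff 0 := by
  -- `Q(a,0) = Q(0,0) + ∑ p_i'(0) a^{i+1}/(i+1)`
  have hkey : ∀ a : ℝ, (q.eval (Polynomial.C a)).eval 0 = (q.eval (Polynomial.C 0)).eval 0 +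
      ∑ i ∈ Finset.range (p.natDegree + 1),
        (p.coeff i).derivative.eval 0 * (a ^ (i + 1) / ((i : ℝ) + 1)) := by
    intro a
    have h1 := hq a 0
    have h2 : HasDerivAt (fun b => f a b) ((q.eval (Polynomial.C 0)).eval 0 +
      ∑ i ∈ Finset.range (p.natDegree + 1),
        (p.coeff i).derivative.eval 0 * (a ^ (i + 1) / ((i : ℝ) + 1))) 0 := by
      have h3 : (fun b => f a b) = fun b => f 0 b + ∑ i ∈ Finset.range (p.natDegree + 1),
          (p.coeff i).eval b * (a ^ (i + 1) / ((i : ℝ) + 1)) := by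
        funext b
        exact mixed_pi_aux f p hp a b
      rw [h3]
      refine (hq 0 0).add ?_
      refine HasDerivAt.fun_sum fun i _ => ?_
      exact ((p.coeff i).hasDerivAt 0).mul_const _
    exact h1.unique h2
  set u : Polynomial ℝ := q.map (Polynomial.evalRingHom 0) with hu
  set v : Polynomial ℝ := ∑ i ∈ Finset.range (p.natDegree + 1),
    Polynomial.C ((p.coeff i).derivative.eval 0 / ((i : ℝ) + 1)) * Polynomial.X ^ (i + 1) with hv
  have huv : u = Polynomial.C ((q.eval (Polynomial.C 0)).eval 0) + v := by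
    apply Polynomial.funext
    intro a
    have h1 : u.eval a = (q.eval (Polynomial.C a)).eval 0 := by
      rw [hu, Polynomial.eval_map, mixed_eval_aux, Polynomial.eval₂_eq_sum_range]
      simp
    rw [h1, hkey a, Polynomial.eval_add, Polynomial.eval_C, hv, Polynomial.eval_finset_sum]
    congr 1
    apply Finset.sum_congr rfl
    intro i _
    simp only [Polynomial.eval_mul, Polynomial.eval_C, Polynomial.eval_pow, Polynomial.eval_X]
    ring
  have h1 : u.coeff 1 = (q.coeff 1).coeff 0 := by
    rw [hu, Polynomial.coeff_map, Polynomial.coe_evalRingHom, Polynomial.coeff_zero_eq_eval_zero]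
  have h2 : v.coeff 1 = (p.coeff 0).coeff 1 := by
    rw [hv, Polynomial.finset_sum_coeff, Finset.sum_eq_single 0]
    · rw [Polynomial.coeff_C_mul, zero_add, Polynomial.coeff_X_pow]
      rw [← Polynomial.coeff_zero_eq_eval_zero, Polynomial.coeff_derivative]
      simp
    · intro i _ hi
      rw [Polynomial.coeff_C_mul, Polynomial.coeff_X_pow, if_neg (by omega), mul_zero]
    · intro h
      exact absurd (Finset.mem_range.2 (Nat.succ_pos _)) h
  rw [← h1, ← h2, huv, Polynomial.coeff_add, Polynomial.coeff_C]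
  simp

end BG
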