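import Pool.Agent.Helper771.BG.Defs

set_option linter.all false

open scoped BigOperators

namespace BG



theorem poly_int (d : ℕ) (h : ℕ → ℕ → ℝ → ℝ) (hc : ∀ i j, Continuous (h i j)) :
    ∃ p : Polynomial (Polynomial ℝ),
      (∀ a b : ℝ, (p.eval (Polynomial.C a)).eval b
        = ∫ t in (0:ℝ)..1, ∑ i ∈ Finset.range d, ∑ j ∈ Finset.range d, a ^ i * b ^ j * h i j t) ∧
      (∀ i < d, ∀ j < d, (p.coeff i).coeff j = ∫ t in (0:ℝ)..1, h i j t) := by
  refine ⟨∑ i ∈ Finset.range d, ∑ j ∈ Finset.range d,
    Polynomial.monomial i (Polynomial.monomial j (∫ t in (0:ℝ)..1, h i j t)), ?_, ?_⟩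
  · intro a b
    rw [intervalIntegral.integral_finset_sum (fun i _ => Continuous.intervalIntegrable (by
      refine continuous_finset_sum _ fun j _ => ?_
      exact continuous_const.mul (hc i j)) _ _)]
    rw [Polynomial.eval_finset_sum, Polynomial.eval_finset_sum]
    refine Finset.sum_congr rfl fun i _ => ?_
    have hcj : ∀ j, IntervalIntegrable (fun t => a ^ i * b ^ j * h i j t) MeasureTheory.volume 0 1 :=
      fun j => (continuous_const.mul (hc i j)).intervalIntegrable _ _
    rw [intervalIntegral.integral_finset_sum (fun j _ => hcj j)]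
    rw [Polynomial.eval_finset_sum, Polynomial.eval_finset_sum]
    refine Finset.sum_congr rfl fun j _ => ?_
    rw [intervalIntegral.integral_const_mul, Polynomial.eval_monomial, Polynomial.eval_mul,
      Polynomial.eval_monomial, ← Polynomial.C_pow, Polynomial.eval_C]
    ring
  · intro i hi j hj
    rw [Polynomial.finset_sum_coeff, Finset.sum_eq_single i]
    · rw [Polynomial.finset_sum_coeff, Polynomial.finset_sum_coeff, Finset.sum_eq_single j]
      · rw [Polynomial.coeff_monomial, if_pos rfl, Polynomial.coeff_monomial, if_pos rfl]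
      · intro j' _ hj'
        rw [Polynomial.coeff_monomial, if_pos rfl, Polynomial.coeff_monomial, if_neg hj']
      · intro h
        exact absurd (Finset.mem_range.2 hj) h
    · intro i' _ hi'
      rw [Polynomial.finset_sum_coeff]
      refine Finset.sum_eq_zero fun j' _ => ?_
      rw [Polynomial.coeff_monomial, if_neg hi']
    · intro h
      exact absurd (Finset.mem_range.2 hi) h

end BG
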