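import Pool.Agent.Helper771.BG.Defs
import Pool.Agent.Helper771.BG.P_mixed
import Pool.Agent.Helper771.BG.P_int_parts
import Pool.Agent.Helper771.BG.P_poly_int

set_option linter.all false

open scoped BigOperators

namespace BG



noncomputable def Hc (u u1 v v1 p p1 q q1 : ℝ) : ℕ → ℕ → ℝ
  | 0, 0 => 320 * u * v ^ 5 + 160 * u * v ^ 3 * v1 + 120 * u * v * v1 ^ 2 + 80 * u1 * v ^ 4 + 40 * u1 * v ^ 2 * v1 + 30 * u1 * v1 ^ 2
  | 0, 1 => 1600 * q * u * v ^ 4 + 480 * q * u * v ^ 2 * v1 + 120 * q * u * v1 ^ 2 + 320 * q * u1 * v ^ 3 + 80 * q * u1 * v * v1 + 160 * q1 * u * v ^ 3 + 240 * q1 * u * v * v1 + 40 * q1 * u1 * v ^ 2 + 60 * q1 * u1 * v1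
  | 0, 2 => 3200 * q ^ 2 * u * v ^ 3 + 480 * q ^ 2 * u * v * v1 + 480 * q ^ 2 * u1 * v ^ 2 + 40 * q ^ 2 * u1 * v1 + 480 * q * q1 * u * v ^ 2 + 240 * q * q1 * u * v1 + 80 * q * q1 * u1 * v + 120 * q1 ^ 2 * u * v + 30 * q1 ^ 2 * u1
  | 0, 3 => 3200 * q ^ 3 * u * v ^ 2 + 160 * q ^ 3 * u * v1 + 320 * q ^ 3 * u1 * v + 480 * q ^ 2 * q1 * u * v + 40 * q ^ 2 * q1 * u1 + 120 * q * q1 ^ 2 * u
  | 0, 4 => 1600 * q ^ 4 * u * v + 80 * q ^ 4 * u1 + 160 * q ^ 3 * q1 * u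
  | 0, 5 => 320 * q ^ 5 * u
  | 1, 0 => 1600 * p * u * v ^ 4 + 480 * p * u * v ^ 2 * v1 + 120 * p * u * v1 ^ 2 + 320 * p * u1 * v ^ 3 + 80 * p * u1 * v * v1 + 160 * p1 * u * v ^ 3 + 240 * p1 * u * v * v1 + 40 * p1 * u1 * v ^ 2 + 60 * p1 * u1 * v1
  | 1, 1 => 6400 * p * q * u * v ^ 3 + 960 * p * q * u * v * v1 + 960 * p * q * u1 * v ^ 2 + 80 * p * q * u1 * v1 + 480 * p * q1 * u * v ^ 2 + 240 * p * q1 * u * v1 + 80 * p * q1 * u1 * v + 480 * p1 * q * u * v ^ 2 + 240 * p1 * q * u * v1 + 80 * p1 * q * u1 * v + 240 * p1 * q1 * u * v + 60 * p1 * q1 * u1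
  | 1, 2 => 9600 * p * q ^ 2 * u * v ^ 2 + 480 * p * q ^ 2 * u * v1 + 960 * p * q ^ 2 * u1 * v + 960 * p * q * q1 * u * v + 80 * p * q * q1 * u1 + 120 * p * q1 ^ 2 * u + 480 * p1 * q ^ 2 * u * v + 40 * p1 * q ^ 2 * u1 + 240 * p1 * q * q1 * u
  | 1, 3 => 6400 * p * q ^ 3 * u * v + 320 * p * q ^ 3 * u1 + 480 * p * q ^ 2 * q1 * u + 160 * p1 * q ^ 3 * u
  | 1, 4 => 1600 * p * q ^ 4 * u
  | 2, 0 => 3200 * p ^ 2 * u * v ^ 3 + 480 * p ^ 2 * u * v * v1 + 480 * p ^ 2 * u1 * v ^ 2 + 40 * p ^ 2 * u1 * v1 + 480 * p * p1 * u * v ^ 2 + 240 * p * p1 * u * v1 + 80 * p * p1 * u1 * v + 120 * p1 ^ 2 * u * v + 30 * p1 ^ 2 * u1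
  | 2, 1 => 9600 * p ^ 2 * q * u * v ^ 2 + 480 * p ^ 2 * q * u * v1 + 960 * p ^ 2 * q * u1 * v + 480 * p ^ 2 * q1 * u * v + 40 * p ^ 2 * q1 * u1 + 960 * p * p1 * q * u * v + 80 * p * p1 * q * u1 + 240 * p * p1 * q1 * u + 120 * p1 ^ 2 * q * u
  | 2, 2 => 9600 * p ^ 2 * q ^ 2 * u * v + 480 * p ^ 2 * q ^ 2 * u1 + 480 * p ^ 2 * q * q1 * u + 480 * p * p1 * q ^ 2 * u
  | 2, 3 => 3200 * p ^ 2 * q ^ 3 * u
  | 3, 0 => 3200 * p ^ 3 * u * v ^ 2 + 160 * p ^ 3 * u * v1 + 320 * p ^ 3 * u1 * v + 480 * p ^ 2 * p1 * u * v + 40 * p ^ 2 * p1 * u1 + 120 * p * p1 ^ 2 * u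
  | 3, 1 => 6400 * p ^ 3 * q * u * v + 320 * p ^ 3 * q * u1 + 160 * p ^ 3 * q1 * u + 480 * p ^ 2 * p1 * q * u
  | 3, 2 => 3200 * p ^ 3 * q ^ 2 * u
  | 4, 0 => 1600 * p ^ 4 * u * v + 80 * p ^ 4 * u1 + 160 * p ^ 3 * p1 * u
  | 4, 1 => 1600 * p ^ 4 * q * u
  | 5, 0 => 320 * p ^ 5 * u
  | _, _ => 0

theorem Hc_sum (u u1 v v1 p p1 q q1 a b : ℝ) :
    ∑ i ∈ Finset.range 6, ∑ j ∈ Finset.range 6, a ^ i * b ^ j * Hc u u1 v v1 p p1 q q1 i j =
    (u1 + 4 * u * (v + a * p + b * q)) * (30 * (v1 + a * p1 + b * q1) ^ 2 +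
      40 * (v1 + a * p1 + b * q1) * (v + a * p + b * q) ^ 2 + 80 * (v + a * p + b * q) ^ 4) := by
  simp only [Finset.sum_range_succ, Finset.sum_range_zero, Hc]
  ring

theorem Hc_cont (u u1 v v1 p p1 q q1 : ℝ → ℝ) (hu : Continuous u) (hu1 : Continuous u1)
    (hv : Continuous v) (hv1 : Continuous v1) (hp : Continuous p) (hp1 : Continuous p1)
    (hq : Continuous q) (hq1 : Continuous q1) (i j : ℕ) :
    Continuous (fun t => Hc (u t) (u1 t) (v t) (v1 t) (p t) (p1 t) (q t) (q1 t) i j) := by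
  rcases i with _ | _ | _ | _ | _ | _ | i <;> rcases j with _ | _ | _ | _ | _ | _ | j <;>
    (simp only [Hc]; fun_prop)

noncomputable def cc (t : ℝ) : ℝ := Real.cos (2 * Real.pi * t)
noncomputable def ss (t : ℝ) : ℝ := Real.sin (2 * Real.pi * t)

theorem cc_der (t : ℝ) : HasDerivAt cc (-(2 * Real.pi) * ss t) t := by
  have h := (Real.hasDerivAt_cos (2 * Real.pi * t)).comp t ((hasDerivAt_id t).const_mul (2 * Real.pi))
  have e : -(2 * Real.pi) * ss t = -Real.sin (2 * Real.pi * t) * (2 * Real.pi * 1) := by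
    unfold ss; ring
  rw [e]
  exact h

theorem ss_der (t : ℝ) : HasDerivAt ss ((2 * Real.pi) * cc t) t := by
  have h := (Real.hasDerivAt_sin (2 * Real.pi * t)).comp t ((hasDerivAt_id t).const_mul (2 * Real.pi))
  have e : (2 * Real.pi) * cc t = Real.cos (2 * Real.pi * t) * (2 * Real.pi * 1) := by
    unfold cc; ring
  rw [e]
  exact h

theorem cc_per (t : ℝ) : cc (t + 1) = cc t := by
  unfold cc
  rw [show 2 * Real.pi * (t + 1) = 2 * Real.pi * t + 2 * Real.pi by ring, Real.cos_add_two_pi]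

theorem ss_per (t : ℝ) : ss (t + 1) = ss t := by
  unfold ss
  rw [show 2 * Real.pi * (t + 1) = 2 * Real.pi * t + 2 * Real.pi by ring, Real.sin_add_two_pi]

theorem cc_smooth : ContDiff ℝ (⊤ : ℕ∞) cc := by
  unfold cc
  fun_prop

theorem ss_smooth : ContDiff ℝ (⊤ : ℕ∞) ss := by
  unfold ss
  fun_prop

theorem ss_cc (t : ℝ) : ss t ^ 2 + cc t ^ 2 = 1 := by
  unfold ss cc
  exact Real.sin_sq_add_cos_sq _

noncomputable def ww (t : ℝ) : ℝ := (ss t + ss t * cc t) / (2 * Real.pi)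
noncomputable def f1 (t : ℝ) : ℝ := ss t / (2 * Real.pi)
noncomputable def f2 (t : ℝ) : ℝ := - cc t / (2 * Real.pi)
noncomputable def vv (t : ℝ) : ℝ := cc t + 2 * cc t ^ 2 - 1
noncomputable def vd (t : ℝ) : ℝ := -(2 * Real.pi) * ss t - 8 * Real.pi * (ss t * cc t)

theorem two_pi_ne : (2 * Real.pi) ≠ 0 := by positivity

theorem ww_der (t : ℝ) : HasDerivAt ww (vv t) t := by
  have h := ((ss_der t).add ((ss_der t).mul (cc_der t))).div_const (2 * Real.pi)
  have e : vv t = (2 * Real.pi * cc t + (2 * Real.pi * cc t * cc t + ss t * (-(2 * Real.pi) * ss t))) /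
      (2 * Real.pi) := by
    have h1 := ss_cc t
    rw [eq_div_iff two_pi_ne]
    unfold vv
    linear_combination (2 * Real.pi) * h1
  rw [e]
  exact h

theorem f1_der (t : ℝ) : HasDerivAt f1 (cc t) t := by
  have h := (ss_der t).div_const (2 * Real.pi)
  have e : cc t = 2 * Real.pi * cc t / (2 * Real.pi) := by
    rw [mul_div_cancel_left₀ _ two_pi_ne]
  rw [e]
  exact h

theorem f2_der (t : ℝ) : HasDerivAt f2 (ss t) t := by
  have h := (cc_der t).neg.div_const (2 * Real.pi)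
  have e : ss t = -(-(2 * Real.pi) * ss t) / (2 * Real.pi) := by
    rw [neg_mul, neg_neg, mul_div_cancel_left₀ _ two_pi_ne]
  rw [e]
  exact h

theorem vv_der (t : ℝ) : HasDerivAt vv (vd t) t := by
  have h := ((cc_der t).add (((cc_der t).pow 2).const_mul 2)).sub_const 1
  have e : vd t = -(2 * Real.pi) * ss t + 2 * (((2:ℕ):ℝ) * cc t ^ (2 - 1) * (-(2 * Real.pi) * ss t)) := by
    unfold vd
    push_cast
    ring
  rw [e]
  exact h

theorem ww_smooth : ContDiff ℝ (⊤ : ℕ∞) ww :=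
  (ss_smooth.add (ss_smooth.mul cc_smooth)).div_const _
theorem f1_smooth : ContDiff ℝ (⊤ : ℕ∞) f1 := ss_smooth.div_const _
theorem f2_smooth : ContDiff ℝ (⊤ : ℕ∞) f2 := cc_smooth.neg.div_const _
theorem ww_per (t : ℝ) : ww (t + 1) = ww t := by unfold ww; rw [ss_per, cc_per]
theorem f1_per (t : ℝ) : f1 (t + 1) = f1 t := by unfold f1; rw [ss_per]
theorem f2_per (t : ℝ) : f2 (t + 1) = f2 t := by unfold f2; rw [cc_per]

/-- the two parameter family -/
noncomputable def wab (a b : ℝ) (t : ℝ) : ℝ := ww t + a * f1 t + b * f2 t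

theorem wab_smooth (a b : ℝ) : ContDiff ℝ (⊤ : ℕ∞) (wab a b) :=
  (ww_smooth.add (contDiff_const.mul f1_smooth)).add (contDiff_const.mul f2_smooth)

theorem wab_per (a b t : ℝ) : wab a b (t + 1) = wab a b t := by
  unfold wab; rw [ww_per, f1_per, f2_per]

theorem wab_deriv (a b : ℝ) : deriv (wab a b) = fun t => vv t + a * cc t + b * ss t := by
  funext t
  exact (((ww_der t).add ((f1_der t).const_mul a)).add ((f2_der t).const_mul b)).deriv

theorem wab_deriv2 (a b : ℝ) : deriv (deriv (wab a b)) =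
    fun t => vd t + a * (-(2 * Real.pi) * ss t) + b * ((2 * Real.pi) * cc t) := by
  rw [wab_deriv]
  funext t
  exact (((vv_der t).add ((cc_der t).const_mul a)).add ((ss_der t).const_mul b)).deriv

theorem cc_cont : Continuous cc := cc_smooth.continuous
theorem ss_cont : Continuous ss := ss_smooth.continuous
theorem vv_cont : Continuous vv := by
  unfold vv
  have := cc_cont
  fun_prop
theorem vd_cont : Continuous vd := by
  unfold vd
  have := cc_cont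
  have := ss_cont
  fun_prop

/-- coefficient functions -/
noncomputable def hh (u u1 : ℝ → ℝ) (i j : ℕ) (t : ℝ) : ℝ :=
  Hc (u t) (u1 t) (vv t) (vd t) (cc t) (-(2 * Real.pi) * ss t) (ss t) ((2 * Real.pi) * cc t) i j

theorem hh_cont (u u1 : ℝ → ℝ) (hu : Continuous u) (hu1 : Continuous u1) (i j : ℕ) :
    Continuous (hh u u1 i j) := by
  have := cc_cont
  have := ss_cont
  exact Hc_cont u u1 vv vd cc (fun t => -(2 * Real.pi) * ss t) ss (fun t => (2 * Real.pi) * cc t)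
    hu hu1 vv_cont vd_cont cc_cont (by fun_prop) ss_cont (by fun_prop) i j

/-- constants in the coefficients -/
def kk (k0 k1 k2 : ℝ) : ℕ → ℕ → ℝ
  | 0, 0 => k0
  | 1, 0 => k1
  | 0, 1 => k2
  | _, _ => 0

theorem kk_sum (k0 k1 k2 a b : ℝ) :
    ∑ i ∈ Finset.range 6, ∑ j ∈ Finset.range 6, a ^ i * b ^ j * kk k0 k1 k2 i j =
      k0 + a * k1 + b * k2 := by
  simp only [Finset.sum_range_succ, Finset.sum_range_zero, kk]
  ring

theorem dir_poly (φ u u1 : ℝ → ℝ) (hφ : ContDiff ℝ (⊤ : ℕ∞) φ) (pφ : ∀ t, φ (t + 1) = φ t)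
    (hu : deriv φ = u) (hu1 : deriv u = u1) (huc : Continuous u) (hu1c : Continuous u1)
    (k0 k1 k2 : ℝ) :
    ∃ p : Polynomial (Polynomial ℝ),
      (∀ a b : ℝ, (p.eval (Polynomial.C a)).eval b
        = (∫ t in (0:ℝ)..1, φ t * sf (wab a b) t) + (k0 + a * k1 + b * k2)) ∧
      (p.coeff 0).coeff 1 = (∫ t in (0:ℝ)..1, hh u u1 0 1 t) + k2 ∧
      (p.coeff 1).coeff 0 = (∫ t in (0:ℝ)..1, hh u u1 1 0 t) + k1 := by
  obtain ⟨p, hp1, hp2⟩ := poly_int 6 (fun i j t => hh u u1 i j t + kk k0 k1 k2 i j)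
    (fun i j => (hh_cont u u1 huc hu1c i j).add continuous_const)
  refine ⟨p, ?_, ?_, ?_⟩
  · intro a b
    rw [hp1 a b, int_parts (wab a b) φ (wab_smooth a b) hφ (wab_per a b) pφ]
    have hint : ∀ t, (∑ i ∈ Finset.range 6, ∑ j ∈ Finset.range 6, a ^ i * b ^ j *
        (hh u u1 i j t + kk k0 k1 k2 i j)) =
        (deriv (deriv φ) t * Nf (wab a b) t + 4 * deriv φ t * deriv (wab a b) t * Nf (wab a b) t) +
          (k0 + a * k1 + b * k2) := by
      intro t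
      have e1 : (∑ i ∈ Finset.range 6, ∑ j ∈ Finset.range 6, a ^ i * b ^ j *
          (hh u u1 i j t + kk k0 k1 k2 i j)) =
          (∑ i ∈ Finset.range 6, ∑ j ∈ Finset.range 6, a ^ i * b ^ j * hh u u1 i j t) +
          ∑ i ∈ Finset.range 6, ∑ j ∈ Finset.range 6, a ^ i * b ^ j * kk k0 k1 k2 i j := by
        rw [← Finset.sum_add_distrib]
        refine Finset.sum_congr rfl fun i _ => ?_
        rw [← Finset.sum_add_distrib]
        exact Finset.sum_congr rfl fun j _ => by ring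
      rw [e1, kk_sum]
      congr 1
      unfold hh
      rw [Hc_sum, hu, hu1]
      unfold Nf
      rw [wab_deriv2, wab_deriv]
      ring
    simp only [hint]
    rw [intervalIntegral.integral_add]
    · simp
    · refine Continuous.intervalIntegrable ?_ _ _
      rw [hu, hu1]
      unfold Nf
      rw [wab_deriv2, wab_deriv]
      have := cc_cont
      have := ss_cont
      have := vv_cont
      have := vd_cont
      fun_prop
    · exact intervalIntegrable_const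
  · rw [hp2 0 (by norm_num) 1 (by norm_num), intervalIntegral.integral_add]
    · simp [kk]
    · exact (hh_cont u u1 huc hu1c 0 1).intervalIntegrable _ _
    · exact intervalIntegrable_const
  · rw [hp2 1 (by norm_num) 0 (by norm_num), intervalIntegral.integral_add]
    · simp [kk]
    · exact (hh_cont u u1 huc hu1c 1 0).intervalIntegrable _ _
    · exact intervalIntegrable_const

/-- antiderivative of the final integrand -/
noncomputable def GGod (t : ℝ) : ℝ := 320 * Real.pi * (vv t ^ 2 / 2 - 3 / 4 * t -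
  ss t * (31 / 15 + 7 / 4 * cc t - 7 / 15 * cc t ^ 2 + 1 / 6 * cc t ^ 3 + 12 / 5 * cc t ^ 4 +
    4 / 3 * cc t ^ 5) / (2 * Real.pi))

theorem GG_der (t : ℝ) : HasDerivAt GGod (hh cc (fun t => -(2 * Real.pi) * ss t) 0 1 t -
    hh ss (fun t => (2 * Real.pi) * cc t) 1 0 t) t := by
  have hc := cc_der t
  have hs := ss_der t
  have hv := vv_der t
  have hA : HasDerivAt (fun t => 31 / 15 + 7 / 4 * cc t - 7 / 15 * cc t ^ 2 + 1 / 6 * cc t ^ 3 +
      12 / 5 * cc t ^ 4 + 4 / 3 * cc t ^ 5)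
      ((7 / 4 - 14 / 15 * cc t + 1 / 2 * cc t ^ 2 + 48 / 5 * cc t ^ 3 + 20 / 3 * cc t ^ 4) *
        (-(2 * Real.pi) * ss t)) t := by
    have h1 := ((((((hasDerivAt_const t (31 / 15 : ℝ)).add (hc.const_mul (7 / 4))).sub
      ((hc.pow 2).const_mul (7 / 15))).add ((hc.pow 3).const_mul (1 / 6))).add
      ((hc.pow 4).const_mul (12 / 5))).add ((hc.pow 5).const_mul (4 / 3)))
    refine h1.congr_deriv ?_
    push_cast
    ring
  have h2 := ((((hv.pow 2).div_const 2).sub ((hasDerivAt_id t).const_mul (3 / 4))).sub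
    ((hs.mul hA).div_const (2 * Real.pi))).const_mul (320 * Real.pi)
  refine h2.congr_deriv ?_
  have hsc := ss_cc t
  have hpi : (2 * Real.pi) ≠ 0 := two_pi_ne
  have e1 : ((2 * Real.pi) * cc t * (31 / 15 + 7 / 4 * cc t - 7 / 15 * cc t ^ 2 + 1 / 6 * cc t ^ 3 +
      12 / 5 * cc t ^ 4 + 4 / 3 * cc t ^ 5) + ss t *
      ((7 / 4 - 14 / 15 * cc t + 1 / 2 * cc t ^ 2 + 48 / 5 * cc t ^ 3 + 20 / 3 * cc t ^ 4) *
        (-(2 * Real.pi) * ss t))) / (2 * Real.pi) =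
      cc t * (31 / 15 + 7 / 4 * cc t - 7 / 15 * cc t ^ 2 + 1 / 6 * cc t ^ 3 +
      12 / 5 * cc t ^ 4 + 4 / 3 * cc t ^ 5) - ss t ^ 2 *
      (7 / 4 - 14 / 15 * cc t + 1 / 2 * cc t ^ 2 + 48 / 5 * cc t ^ 3 + 20 / 3 * cc t ^ 4) := by
    rw [div_eq_iff hpi]
    ring
  rw [e1]
  unfold hh
  simp only [Hc]
  unfold vd vv
  push_cast
  generalize ss t = S at *
  generalize cc t = C at *
  linear_combination (320 * Real.pi * (-(C + 2 * C ^ 2 - 1) * (-(2 * Real.pi) * S -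
    8 * Real.pi * (S * C)) + (C + 2 * C ^ 2 - 1) ^ 3 +
    (7 / 4 - 14 / 15 * C + 1 / 2 * C ^ 2 + 48 / 5 * C ^ 3 + 20 / 3 * C ^ 4))) * hsc

theorem one_dim (c : ℝ) (Fn : (ℝ → ℝ) → ℝ) (B : (ℝ → ℝ) → (ℝ → ℝ) → ℝ) (l : (ℝ → ℝ) → ℝ)
    (hB1 : ∀ φ ψ χ : ℝ → ℝ, ContDiff ℝ (⊤ : ℕ∞) φ → ContDiff ℝ (⊤ : ℕ∞) ψ →
      ContDiff ℝ (⊤ : ℕ∞) χ → (∀ t, φ (t + 1) = φ t) → (∀ t, ψ (t + 1) = ψ t) →
      (∀ t, χ (t + 1) = χ t) → ∀ r s : ℝ,
      B φ (fun t => r * ψ t + s * χ t) = r * B φ ψ + s * B φ χ)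
    (hB2 : ∀ φ ψ : ℝ → ℝ, ContDiff ℝ (⊤ : ℕ∞) φ → ContDiff ℝ (⊤ : ℕ∞) ψ →
      (∀ t, φ (t + 1) = φ t) → (∀ t, ψ (t + 1) = ψ t) → B φ ψ = B ψ φ)
    (hF : ∀ w φ : ℝ → ℝ, ContDiff ℝ (⊤ : ℕ∞) w → ContDiff ℝ (⊤ : ℕ∞) φ →
      (∀ t, w (t + 1) = w t) → (∀ t, φ (t + 1) = φ t) →
      HasDerivAt (fun ε : ℝ => Fn (fun t => w t + ε * φ t))
        ((∫ t in (0:ℝ)..1, φ t * sf w t) - c * B φ w - l φ) 0) : False := by
  have hBw : ∀ (φ : ℝ → ℝ), ContDiff ℝ (⊤ : ℕ∞) φ → (∀ t, φ (t + 1) = φ t) → ∀ a b : ℝ,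
      B φ (wab a b) = B φ ww + a * B φ f1 + b * B φ f2 := by
    intro φ hφ pφ a b
    have h1 := hB1 φ ww f1 hφ ww_smooth f1_smooth pφ ww_per f1_per 1 a
    have h2 := hB1 φ (fun t => 1 * ww t + a * f1 t) f2 hφ
      ((contDiff_const.mul ww_smooth).add (contDiff_const.mul f1_smooth)) f2_smooth pφ
      (fun t => by simp only [ww_per, f1_per]) f2_per 1 b
    have h3 : wab a b = fun t => 1 * (1 * ww t + a * f1 t) + b * f2 t := by
      funext t
      unfold wab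
      ring
    rw [h3, h2, h1]
    ring
  have hdf1 : deriv f1 = cc := funext fun t => (f1_der t).deriv
  have hdf2 : deriv f2 = ss := funext fun t => (f2_der t).deriv
  have hdcc : deriv cc = fun t => -(2 * Real.pi) * ss t := funext fun t => (cc_der t).deriv
  have hdss : deriv ss = fun t => (2 * Real.pi) * cc t := funext fun t => (ss_der t).deriv
  have c1 : Continuous (fun t => -(2 * Real.pi) * ss t) := continuous_const.mul ss_cont
  have c2 : Continuous (fun t => (2 * Real.pi) * cc t) := continuous_const.mul cc_cont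
  obtain ⟨p, hp, hp01, -⟩ := dir_poly f1 cc (fun t => -(2 * Real.pi) * ss t) f1_smooth f1_per hdf1
    hdcc cc_cont c1 (-(c * B f1 ww) - l f1) (-(c * B f1 f1)) (-(c * B f1 f2))
  obtain ⟨q, hq, -, hq10⟩ := dir_poly f2 ss (fun t => (2 * Real.pi) * cc t) f2_smooth f2_per hdf2
    hdss ss_cont c2 (-(c * B f2 ww) - l f2) (-(c * B f2 f1)) (-(c * B f2 f2))
  have hmix := mixed (fun a b => Fn (wab a b)) p q ?_ ?_
  · rw [hp01, hq10, hB2 f2 f1 f2_smooth f1_smooth f2_per f1_per] at hmix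
    have h1 : (∫ t in (0:ℝ)..1, (hh cc (fun t => -(2 * Real.pi) * ss t) 0 1 t -
        hh ss (fun t => (2 * Real.pi) * cc t) 1 0 t)) = GGod 1 - GGod 0 :=
      intervalIntegral.integral_eq_sub_of_hasDerivAt (fun t _ => GG_der t)
        (((hh_cont _ _ cc_cont c1 0 1).sub (hh_cont _ _ ss_cont c2 1 0)).intervalIntegrable _ _)
    rw [intervalIntegral.integral_sub ((hh_cont _ _ cc_cont c1 0 1).intervalIntegrable _ _)
      ((hh_cont _ _ ss_cont c2 1 0).intervalIntegrable _ _)] at h1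
    have h2 : GGod 1 - GGod 0 = -(240 * Real.pi) := by
      have e1 : cc 1 = cc 0 := by have := cc_per 0; rwa [zero_add] at this
      have e2 : ss 1 = ss 0 := by have := ss_per 0; rwa [zero_add] at this
      unfold GGod vv
      rw [e1, e2]
      ring
    have h3 := Real.pi_pos
    linarith
  · intro a b
    have h1 := hF (wab a b) f1 (wab_smooth a b) f1_smooth (wab_per a b) f1_per
    rw [hp a b]
    have h2 : (fun ε : ℝ => Fn (fun t => wab a b t + ε * f1 t)) = fun ε => Fn (wab (a + ε) b) := by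
      funext ε
      congr 1
      funext t
      unfold wab
      ring
    rw [h2, hBw f1 f1_smooth f1_per] at h1
    have h3 : HasDerivAt (fun a' => Fn (wab (a + (a' - a)) b)) _ a :=
      HasDerivAt.comp_sub_const (f := fun ε => Fn (wab (a + ε) b)) a a (by rw [sub_self]; exact h1)
    have h4 : (fun a' => Fn (wab (a + (a' - a)) b)) = fun a' => Fn (wab a' b) := by
      funext a'
      rw [add_sub_cancel]
    rw [h4] at h3
    refine h3.congr_deriv ?_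
    ring
  · intro a b
    have h1 := hF (wab a b) f2 (wab_smooth a b) f2_smooth (wab_per a b) f2_per
    rw [hq a b]
    have h2 : (fun ε : ℝ => Fn (fun t => wab a b t + ε * f2 t)) = fun ε => Fn (wab a (b + ε)) := by
      funext ε
      congr 1
      funext t
      unfold wab
      ring
    rw [h2, hBw f2 f2_smooth f2_per] at h1
    have h3 : HasDerivAt (fun b' => Fn (wab a (b + (b' - b)))) _ b :=
      HasDerivAt.comp_sub_const (f := fun ε => Fn (wab a (b + ε))) b b (by rw [sub_self]; exact h1)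
    have h4 : (fun b' => Fn (wab a (b + (b' - b)))) = fun b' => Fn (wab a b') := by
      funext b'
      rw [add_sub_cancel]
    rw [h4] at h3
    refine h3.congr_deriv ?_
    ring

end BG
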