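import Pool.Agent.Helper771.BG.Defs

set_option linter.all false

open scoped BigOperators

namespace BG



theorem tint_one (h : ℝ → ℝ) (hc : Continuous h) :
    tint (n := 6) (fun x => h (x 0)) = ∫ t in (0:ℝ)..1, h t := by
  unfold tint
  have hmeas : (MeasureTheory.volume : MeasureTheory.Measure (Fin 6 → ℝ)).restrict
      (Set.Icc (0 : Fin 6 → ℝ) 1) =
      MeasureTheory.Measure.pi (fun _ => MeasureTheory.volume.restrict (Set.Icc (0 : ℝ) 1)) := by
    rw [← Set.pi_univ_Icc, MeasureTheory.volume_pi, MeasureTheory.Measure.restrict_pi_pi]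
    rfl
  rw [hmeas]
  have hprod : (fun x : Fin 6 → ℝ => h (x 0)) =
      fun x : Fin 6 → ℝ => ∏ i : Fin 6, (if i = 0 then h else fun _ => 1) (x i) := by
    funext x
    rw [Finset.prod_eq_single 0]
    · simp
    · intro b _ hb
      simp [hb]
    · intro h0
      exact absurd (Finset.mem_univ _) h0
  rw [hprod]
  rw [MeasureTheory.integral_fintype_prod_eq_prod (f := fun i : Fin 6 => (if i = 0 then h else fun _ => (1 : ℝ)))]
  rw [Finset.prod_eq_single 0]
  · rw [if_pos rfl, MeasureTheory.integral_Icc_eq_integral_Ioc,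
      intervalIntegral.integral_of_le zero_le_one]
  · intro b _ hb
    rw [if_neg hb]
    simp
  · intro h0
    exact absurd (Finset.mem_univ _) h0

end BG
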