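import Pool.Agent.Helper771.BG.Defs
import Pool.Agent.Helper771.BG.P_dens_w
import Pool.Agent.Helper771.BG.P_form_smooth
import Pool.Agent.Helper771.BG.P_conf_met
import Pool.Agent.Helper771.BG.P_flat_met
import Pool.Agent.Helper771.BG.P_tint_one
import Pool.Agent.Helper771.BG.P_one_dim

set_option linter.all false

open scoped BigOperators

namespace BG



theorem lift_smooth {w : ℝ → ℝ} (hw : ContDiff ℝ (⊤ : ℕ∞) w) :
    ContDiff ℝ (⊤ : ℕ∞) (fun x : Fin 6 → ℝ => w (x 0)) :=
  hw.comp (contDiff_apply ℝ ℝ (0 : Fin 6))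

theorem lift_per {w : ℝ → ℝ} (hw : ∀ t, w (t + 1) = w t) :
    Per (fun x : Fin 6 → ℝ => w (x 0)) := by
  intro x z
  have h : Function.Periodic w 1 := hw
  have h2 := h.int_mul (z 0) (x 0)
  rw [mul_one] at h2
  exact h2

theorem cube_int {f : (Fin 6 → ℝ) → ℝ} (hf : Continuous f) :
    MeasureTheory.IntegrableOn f (Set.Icc (0 : Fin 6 → ℝ) 1) MeasureTheory.volume :=
  hf.integrableOn_Icc

theorem tint_add' {f g : (Fin 6 → ℝ) → ℝ} (hf : Continuous f) (hg : Continuous g) :
    tint (fun x => f x + g x) = tint f + tint g :=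
  MeasureTheory.integral_add (cube_int hf) (cube_int hg)

theorem tint_sub' {f g : (Fin 6 → ℝ) → ℝ} (hf : Continuous f) (hg : Continuous g) :
    tint (fun x => f x - g x) = tint f - tint g :=
  MeasureTheory.integral_sub (cube_int hf) (cube_int hg)

theorem tint_mul' (r : ℝ) (f : (Fin 6 → ℝ) → ℝ) : tint (fun x => r * f x) = r * tint f :=
  MeasureTheory.integral_const_mul r f

theorem bg_main (c : ℝ) (Q L G F : TF 0) (hQ : IsQ 6 Q) (hL : IsLCI 6 L)
    (hF : IsPrimitive 6 F G)
    (h : ∀ g : (Fin 6 → ℝ) → Matrix (Fin 6) (Fin 6) ℝ, IsMet g → Per g → ∀ x,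
      tS.form g x = c * Q.form g x + L.form g x + G.form g x) : False := by
  obtain ⟨P, hP1, hP2⟩ := hQ
  obtain ⟨hfl, hflp⟩ := flat_met 6
  -- continuity of `P`
  have hconfmet : ∀ w : ℝ → ℝ, ContDiff ℝ (⊤ : ℕ∞) w →
      IsMet (conf (fun y : Fin 6 → ℝ => w (y 0)) (fun _ => 1)) := fun w hw =>
    (conf_met hfl (lift_smooth hw)).1
  have hPc : ∀ w : ℝ → ℝ, ContDiff ℝ (⊤ : ℕ∞) w → (∀ t, w (t + 1) = w t) →
      Continuous (P (fun y : Fin 6 → ℝ => w (y 0))) := by
    intro w hw hwp
    have h1 : P (fun y : Fin 6 → ℝ => w (y 0)) = fun x =>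
        Q.form (conf (fun y : Fin 6 → ℝ => w (y 0)) (fun _ => 1)) x - Q.form (fun _ => 1) x := by
      funext x
      rw [hP1 _ (lift_smooth hw) (lift_per hwp) x]
      ring
    rw [h1]
    exact (form_smooth Q (hconfmet w hw)).continuous.sub (form_smooth Q hfl).continuous
  have hφc : ∀ w : ℝ → ℝ, ContDiff ℝ (⊤ : ℕ∞) w → Continuous (fun x : Fin 6 → ℝ => w (x 0)) :=
    fun w hw => (lift_smooth hw).continuous
  refine one_dim c (fun w => tint (F.form (conf (fun x : Fin 6 → ℝ => w (x 0)) (fun _ => 1))))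
    (fun φ ψ => tint (fun x : Fin 6 → ℝ => φ (x 0) * P (fun y => ψ (y 0)) x))
    (fun φ => tint (fun x : Fin 6 → ℝ => φ (x 0) *
      (c * Q.form (fun _ => 1) x + L.form (fun _ => 1) x))) ?_ ?_ ?_
  · intro φ ψ χ hφ hψ hχ hφp hψp hχp r s
    have h1 : P (fun y : Fin 6 → ℝ => r * ψ (y 0) + s * χ (y 0)) =
        r • P (fun y => ψ (y 0)) + s • P (fun y => χ (y 0)) := by
      rw [← map_smul, ← map_smul, ← map_add]
      rfl
    show tint (fun x : Fin 6 → ℝ => φ (x 0) * P (fun y => r * ψ (y 0) + s * χ (y 0)) x) = _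
    rw [h1]
    have h2 : (fun x : Fin 6 → ℝ => φ (x 0) *
        (r • P (fun y => ψ (y 0)) + s • P (fun y => χ (y 0))) x) =
        fun x => r * (φ (x 0) * P (fun y => ψ (y 0)) x) +
          s * (φ (x 0) * P (fun y => χ (y 0)) x) := by
      funext x
      simp only [Pi.add_apply, Pi.smul_apply, smul_eq_mul]
      ring
    have c1 : Continuous fun x : Fin 6 → ℝ => r * (φ (x 0) * P (fun y => ψ (y 0)) x) :=
      continuous_const.mul ((hφc φ hφ).mul (hPc ψ hψ hψp))
    have c2 : Continuous fun x : Fin 6 → ℝ => s * (φ (x 0) * P (fun y => χ (y 0)) x) :=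
      continuous_const.mul ((hφc φ hφ).mul (hPc χ hχ hχp))
    rw [h2, tint_add' c1 c2, tint_mul', tint_mul']
  · intro φ ψ hφ hψ hφp hψp
    exact hP2 _ _ (lift_smooth hφ) (lift_per hφp) (lift_smooth hψ) (lift_per hψp)
  · intro w φ hw hφ hwp hφp
    have hg := hconfmet w hw
    have hcm := conf_met hfl (lift_smooth hw)
    have hgp : Per (conf (fun y : Fin 6 → ℝ => w (y 0)) (fun _ => 1)) :=
      hcm.2.2 hflp (lift_per hwp)
    have h1 := hF _ hg hgp (fun x => φ (x 0)) (lift_smooth hφ) (lift_per hφp)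
    have h2 : (fun ε : ℝ => tint (F.form (conf (fun x : Fin 6 → ℝ => ε * φ (x 0))
        (conf (fun y : Fin 6 → ℝ => w (y 0)) (fun _ => 1))))) =
        fun ε : ℝ => tint (F.form (conf (fun x : Fin 6 → ℝ => w (x 0) + ε * φ (x 0))
          (fun _ => 1))) := by
      funext ε
      rw [hcm.2.1]
    rw [h2] at h1
    have hsf : Continuous (sf w) := by
      have h3 : sf w = fun t => tS.form (conf (fun y : Fin 6 → ℝ => w (y 0)) (fun _ => 1))
          (fun _ => t) := by
        funext t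
        rw [dens_w hw]
      rw [h3]
      exact (form_smooth tS hg).continuous.comp (continuous_pi fun _ => continuous_id)
    have h4 : (fun x : Fin 6 → ℝ => φ (x 0) *
        G.form (conf (fun y : Fin 6 → ℝ => w (y 0)) (fun _ => 1)) x) =
        fun x => (φ (x 0) * sf w (x 0) - c * (φ (x 0) * P (fun y => w (y 0)) x)) -
          φ (x 0) * (c * Q.form (fun _ => 1) x + L.form (fun _ => 1) x) := by
      funext x
      have h5 := h _ hg hgp x
      rw [dens_w hw, hP1 _ (lift_smooth hw) (lift_per hwp) x,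
        hL _ hfl _ (lift_smooth hw) x] at h5
      have h6 : G.form (conf (fun y : Fin 6 → ℝ => w (y 0)) (fun _ => 1)) x =
          sf w (x 0) - c * (Q.form (fun _ => 1) x + P (fun y => w (y 0)) x) -
            L.form (fun _ => 1) x := by
        linarith
      rw [h6]
      ring
    rw [h4] at h1
    have hc1 : Continuous fun x : Fin 6 → ℝ => φ (x 0) * sf w (x 0) :=
      (hφc φ hφ).mul (hsf.comp (continuous_apply 0))
    have hc2 : Continuous fun x : Fin 6 → ℝ => c * (φ (x 0) * P (fun y => w (y 0)) x) :=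
      continuous_const.mul ((hφc φ hφ).mul (hPc w hw hwp))
    have hc3 : Continuous fun x : Fin 6 → ℝ => φ (x 0) *
        (c * Q.form (fun _ => 1) x + L.form (fun _ => 1) x) :=
      (hφc φ hφ).mul ((continuous_const.mul (form_smooth Q hfl).continuous).add
        (form_smooth L hfl).continuous)
    have hc12 : Continuous fun x : Fin 6 → ℝ => φ (x 0) * sf w (x 0) -
        c * (φ (x 0) * P (fun y => w (y 0)) x) := hc1.sub hc2
    rw [tint_sub' hc12 hc3, tint_sub' hc1 hc2, tint_mul',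
      tint_one (fun t => φ t * sf w t) (hφ.continuous.mul hsf)] at h1
    exact h1

end BG
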