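import Pool.Agent.Helper771.BG.Defs
import Pool.Agent.Helper771.BG.P_tf_rel
import Pool.Agent.Helper771.BG.P_sm_der
import Pool.Agent.Helper771.BG.P_sm_metric
import Pool.Agent.Helper771.BG.P_jacobi
import Pool.Agent.Helper771.BG.P_tS_eval
import Pool.Agent.Helper771.BG.P_div_formula

set_option linter.all false

open scoped BigOperators

namespace BG



theorem div_thm {n : ℕ} {g : (Fin n → ℝ) → Matrix (Fin n) (Fin n) ℝ} (hg : IsMet g)
    (x : Fin n → ℝ) :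
    tS.form g x = ∑ a, pd a (fun y => Real.sqrt (g y).det
      * ∑ b, (g y)⁻¹ a b * tV.val g (fun _ => b) y) x := by
  obtain ⟨D, hD, hDc⟩ := sm_der n
  obtain ⟨G, Gi, v, vi, hM, hG, hGi, hv, hvv, hvvi⟩ := sm_metric hg
  let Rel : Sm n → ((Fin n → ℝ) → ℝ) → Prop := fun a f => (a : (Fin n → ℝ) → ℝ) = f
  have hR : RelHom D pd Rel := by
    refine ⟨rfl, ?_, ?_, ?_, ?_⟩
    · intro a a' b b' h1 h2
      show ((a + a' : Sm n) : (Fin n → ℝ) → ℝ) = b + b'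
      rw [← h1, ← h2]; rfl
    · intro a a' b b' h1 h2
      show ((a * a' : Sm n) : (Fin n → ℝ) → ℝ) = b * b'
      rw [← h1, ← h2]; rfl
    · intro r a b h1
      show ((r • a : Sm n) : (Fin n → ℝ) → ℝ) = r • b
      rw [← h1]; rfl
    · intro i a b h1
      show ((D i a : Sm n) : (Fin n → ℝ) → ℝ) = pd i b
      rw [hDc, ← h1]
  have hrel : ∀ {m : ℕ} (t : TF m) (i : Fin m → Fin n),
      ((t.eval D G Gi i : Sm n) : (Fin n → ℝ) → ℝ) =
        t.eval pd (fun i j y => g y i j) (fun i j y => (g y)⁻¹ i j) i := fun t i =>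
    tf_rel hR (fun i j => hG i j) (fun i j => hGi i j) t i
  let i0 : Fin 0 → Fin n := fun p => p.elim0
  obtain ⟨-, h2, h3⟩ := tS_eval hD hM i0
  set f : Sm n := tRic2.eval D G Gi i0 with hf
  have h4 := div_formula hD hM v f (jacobi hD hM v vi hvv hvvi)
  rw [← h3] at h4
  have h5 : tS.form g x = ((v * tS.eval D G Gi i0 : Sm n) : (Fin n → ℝ) → ℝ) x := by
    show Real.sqrt (g x).det * tS.eval pd (fun i j y => g y i j) (fun i j y => (g y)⁻¹ i j) i0 x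
      = (v : (Fin n → ℝ) → ℝ) x * ((tS.eval D G Gi i0 : Sm n) : (Fin n → ℝ) → ℝ) x
    rw [hv, hrel]
  rw [h5, h4]
  have h6 : ∀ s : Finset (Fin n), ∀ F : Fin n → Sm n,
      ((∑ a ∈ s, F a : Sm n) : (Fin n → ℝ) → ℝ) = fun y => ∑ a ∈ s, (F a : (Fin n → ℝ) → ℝ) y := by
    intro s F
    funext y
    rw [AddSubmonoidClass.coe_finsetSum, Finset.sum_apply]
  rw [h6]
  show ∑ a, ((D a (v * ∑ b, Gi a b * D b f) : Sm n) : (Fin n → ℝ) → ℝ) x = _
  apply Finset.sum_congr rfl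
  intro a _
  rw [hDc]
  congr 1
  funext y
  show (v : (Fin n → ℝ) → ℝ) y * ((∑ b, Gi a b * D b f : Sm n) : (Fin n → ℝ) → ℝ) y = _
  rw [hv, h6]
  show Real.sqrt (g y).det * ∑ b, ((Gi a b : Sm n) : (Fin n → ℝ) → ℝ) y * ((D b f : Sm n) : (Fin n → ℝ) → ℝ) y = _
  congr 1
  apply Finset.sum_congr rfl
  intro b _
  rw [hGi, ← h2 b, hrel]
  rfl

end BG
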