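import Pool.Agent.Helper771.BG.Defs

set_option linter.all false

open scoped BigOperators

namespace BG



theorem per_int_aux {m : ℕ} (a : Fin (m + 1)) {f : (Fin (m + 1) → ℝ) → ℝ}
    (hf : ContDiff ℝ (⊤ : ℕ∞) f) (hp : Per f) : tint (pd a f) = 0 := by
  classical
  have hdf : Differentiable ℝ f := hf.differentiable (by simp)
  have hcd : Continuous (fderiv ℝ f) := hf.continuous_fderiv (by simp)
  let F : Fin (m + 1) → (Fin (m + 1) → ℝ) → ℝ := fun i => if i = a then f else fun _ => 0
  let F' : Fin (m + 1) → (Fin (m + 1) → ℝ) → (Fin (m + 1) → ℝ) →L[ℝ] ℝ :=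
    fun i x => if i = a then fderiv ℝ f x else 0
  have hsum : ∀ x, ∑ i, F' i x (Pi.single i 1) = pd a f x := by
    intro x
    rw [Finset.sum_eq_single a]
    · simp only [F', if_true]
      rfl
    · intro b _ hb
      simp only [F', if_neg hb]
      rfl
    · intro h
      exact absurd (Finset.mem_univ a) h
  have hcpd : Continuous (pd a f) := by
    unfold pd
    exact hcd.clm_apply continuous_const
  have hdiv := MeasureTheory.integral_divergence_of_hasFDerivAt_off_countable'
    (a := (0 : Fin (m + 1) → ℝ)) (b := 1) (by intro i; simp) F F' ∅ Set.countable_empty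
    (by
      intro i
      by_cases hi : i = a
      · simp only [F, if_pos hi]; exact hf.continuous.continuousOn
      · simp only [F, if_neg hi]; exact continuousOn_const)
    (by
      intro x _ i
      by_cases hi : i = a
      · simp only [F, F', if_pos hi]; exact (hdf x).hasFDerivAt
      · simp only [F, F', if_neg hi]; exact hasFDerivAt_const _ _)
    (by
      simp_rw [hsum]
      exact hcpd.continuousOn.integrableOn_compact isCompact_Icc)
  simp_rw [hsum] at hdiv
  unfold tint
  rw [hdiv]
  refine Finset.sum_eq_zero fun i _ => ?_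
  by_cases hi : i = a
  · subst hi
    have hface : ∀ x : Fin m → ℝ, F i (Fin.insertNth i ((1 : Fin (m + 1) → ℝ) i) x) =
        F i (Fin.insertNth i ((0 : Fin (m + 1) → ℝ) i) x) := by
      intro x
      simp only [F, if_true]
      have h1 := hp (Fin.insertNth i ((0 : Fin (m + 1) → ℝ) i) x) (Pi.single i 1)
      rw [← h1]
      congr 1
      funext j
      refine Fin.succAboveCases i ?_ (fun j => ?_) j
      · simp
      · simp
    simp_rw [hface]
    rw [sub_self]
  · simp [F, hi]

theorem per_int {n : ℕ} (a : Fin n) {f : (Fin n → ℝ) → ℝ} (hf : ContDiff ℝ (⊤ : ℕ∞) f)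
    (hp : Per f) : tint (pd a f) = 0 := by
  cases n with
  | zero => exact a.elim0
  | succ m => exact per_int_aux a hf hp

end BG
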