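import Pool.Agent.Helper771.BG.Defs
import Pool.Agent.Helper771.BG.P_tf_rel
import Pool.Agent.Helper771.BG.P_sm_der
import Pool.Agent.Helper771.BG.P_sm_metric
import Pool.Agent.Helper771.BG.P_div_thm
import Pool.Agent.Helper771.BG.P_per_int

set_option linter.all false

open scoped BigOperators

namespace BG



theorem divint_relSm {n : ℕ} {D : Fin n → Sm n → Sm n}
    (hD : ∀ i (f : Sm n), ((D i f : Sm n) : (Fin n → ℝ) → ℝ) = pd i (f : (Fin n → ℝ) → ℝ)) :
    RelHom D pd (fun (f : Sm n) (h : (Fin n → ℝ) → ℝ) => (f : (Fin n → ℝ) → ℝ) = h) where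
  one := rfl
  add := by
    intro a a' b b' h h'
    rw [← h, ← h']
    rfl
  mul := by
    intro a a' b b' h h'
    rw [← h, ← h']
    rfl
  smul := by
    intro r a b h
    rw [← h]
    rfl
  der := by
    intro i a b h
    rw [hD, h]

theorem divint_relShift {n : ℕ} (z : Fin n → ℝ) :
    RelHom (A := (Fin n → ℝ) → ℝ) (B := (Fin n → ℝ) → ℝ) pd pd
      (fun f h => ∀ x, h x = f (x + z)) where
  one := fun _ => rfl
  add := by
    intro a a' b b' h h' x
    rw [Pi.add_apply, Pi.add_apply, h x, h' x]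
  mul := by
    intro a a' b b' h h' x
    rw [Pi.mul_apply, Pi.mul_apply, h x, h' x]
  smul := by
    intro r a b h x
    rw [Pi.smul_apply, Pi.smul_apply, h x]
  der := by
    intro i a b h x
    have h1 : b = fun x => a (x + z) := funext h
    unfold pd
    rw [h1, fderiv_comp_add_right]

theorem divint_val_per {n : ℕ} {g : (Fin n → ℝ) → Matrix (Fin n) (Fin n) ℝ} (hp : Per g)
    {m : ℕ} (t : TF m) (i : Fin m → Fin n) : Per (t.val g i) := by
  intro x z
  have h := tf_rel (divint_relShift (fun k => (z k : ℝ)))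
    (gA := fun i j y => g y i j) (giA := fun i j y => (g y)⁻¹ i j)
    (gB := fun i j y => g y i j) (giB := fun i j y => (g y)⁻¹ i j)
    (fun i j x => by rw [← hp x z]; rfl) (fun i j x => by rw [← hp x z]; rfl) t i x
  unfold TF.val
  rw [h]
  rfl

theorem div_int {n : ℕ} {g : (Fin n → ℝ) → Matrix (Fin n) (Fin n) ℝ} (hg : IsMet g)
    (hp : Per g) : tint (tS.form g) = 0 := by
  obtain ⟨D, hDer, hD⟩ := sm_der n
  obtain ⟨G, Gi, v, vi, hM, hG, hGi, hv, -, -⟩ := sm_metric hg
  set Xf : Fin n → (Fin n → ℝ) → ℝ := fun a y => Real.sqrt (g y).det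
      * ∑ b, (g y)⁻¹ a b * tV.val g (fun _ => b) y with hXf
  set Xs : Fin n → Sm n := fun a => v * ∑ b, Gi a b * tV.eval D G Gi (fun _ => b) with hXs
  have hX : ∀ a, ((Xs a : Sm n) : (Fin n → ℝ) → ℝ) = Xf a := by
    intro a
    have hT : ∀ b, ((tV.eval D G Gi (fun _ => b) : Sm n) : (Fin n → ℝ) → ℝ) =
        tV.val g (fun _ => b) := fun b =>
      tf_rel (divint_relSm hD) (gA := G) (giA := Gi) (gB := fun i j y => g y i j)
        (giB := fun i j y => (g y)⁻¹ i j) hG hGi tV (fun _ => b)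
    funext y
    have h1 : ((Xs a : Sm n) : (Fin n → ℝ) → ℝ) = (v : (Fin n → ℝ) → ℝ) *
        ∑ b, ((Gi a b : Sm n) : (Fin n → ℝ) → ℝ) *
          ((tV.eval D G Gi (fun _ => b) : Sm n) : (Fin n → ℝ) → ℝ) := by
      simp only [hXs]
      push_cast
      rfl
    rw [h1, Pi.mul_apply, Finset.sum_apply, hv]
    simp only [hXf]
    congr 1
    refine Finset.sum_congr rfl fun b _ => ?_
    rw [Pi.mul_apply, hGi, hT]
  have hsm : ∀ a, ContDiff ℝ (⊤ : ℕ∞) (Xf a) := by
    intro a
    rw [← hX a]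
    exact (Xs a).2
  have hper : ∀ a, Per (Xf a) := by
    intro a x z
    simp only [hXf]
    rw [hp x z]
    congr 1
    refine Finset.sum_congr rfl fun b _ => ?_
    rw [divint_val_per hp tV (fun _ => b) x z]
  have hcont : ∀ a, Continuous (pd a (Xf a)) := by
    intro a
    rw [← hX a, ← hD]
    have h3 : ContDiff ℝ (⊤ : ℕ∞) ((D a (Xs a) : Sm n) : (Fin n → ℝ) → ℝ) := (D a (Xs a)).2
    exact h3.continuous
  have h2 : tS.form g = fun x => ∑ a, pd a (Xf a) x := by
    funext x
    exact div_thm hg x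
  rw [h2]
  unfold tint
  rw [MeasureTheory.integral_finsetSum]
  · refine Finset.sum_eq_zero fun a _ => ?_
    exact per_int a (hsm a) (hper a)
  · intro a _
    exact (hcont a).continuousOn.integrableOn_compact isCompact_Icc

end BG
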