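import Pool.Agent.Helper771.BG.Defs

set_option linter.all false

open scoped BigOperators

namespace BG

/-- `D` commutes with real multiples. -/
theorem pd_smul' {n : ℕ} (i : Fin n) (r : ℝ) (f : (Fin n → ℝ) → ℝ) : pd i (r • f) = r • pd i f := by
  funext x
  simp only [pd, Pi.smul_apply]
  rw [fderiv_const_smul_field]
  rfl

theorem chr_scale {n : ℕ} {g gi : Fin n → Fin n → ((Fin n → ℝ) → ℝ)} (t : ℝ) (ht : t ≠ 0)
    (k i j : Fin n) :
    chr pd (fun i j => t • g i j) (fun i j => t⁻¹ • gi i j) k i j = chr pd g gi k i j := by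
  simp only [chr, pd_smul', ← smul_add, ← smul_sub, smul_mul_smul_comm, inv_mul_cancel₀ ht, one_smul]

theorem chr_scale' {n : ℕ} {g gi : Fin n → Fin n → ((Fin n → ℝ) → ℝ)} (t : ℝ) (ht : t ≠ 0) :
    chr pd (fun i j => t • g i j) (fun i j => t⁻¹ • gi i j) = chr pd g gi := by
  funext k i j
  exact chr_scale t ht k i j

theorem rm_scale {n : ℕ} {g gi : Fin n → Fin n → ((Fin n → ℝ) → ℝ)} (t : ℝ) (ht : t ≠ 0)
    (i j k l : Fin n) :
    rm pd (fun i j => t • g i j) (fun i j => t⁻¹ • gi i j) i j k l = t • rm pd g gi i j k l := by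
  simp only [rm, chr_scale' t ht, smul_mul_assoc, Finset.smul_sum]

theorem covD_scale {n m : ℕ} {g gi : Fin n → Fin n → ((Fin n → ℝ) → ℝ)} (t : ℝ) (ht : t ≠ 0)
    (r : ℝ) (T : (Fin m → Fin n) → ((Fin n → ℝ) → ℝ)) (i : Fin (m + 1) → Fin n) :
    covD pd (fun i j => t • g i j) (fun i j => t⁻¹ • gi i j) (fun a => r • T a) i
      = r • covD pd g gi T i := by
  simp only [covD, chr_scale' t ht, pd_smul', mul_smul_comm, smul_sub, Finset.smul_sum]

theorem tRic_scale {n : ℕ} {g gi : Fin n → Fin n → ((Fin n → ℝ) → ℝ)} (t : ℝ) (ht : t ≠ 0)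
    (i : Fin 2 → Fin n) :
    tRic.eval pd (fun i j => t • g i j) (fun i j => t⁻¹ • gi i j) i = tRic.eval pd g gi i := by
  simp only [tRic, TF.eval, rm_scale t ht, smul_mul_smul_comm, inv_mul_cancel₀ ht, one_smul]

theorem tRic2_scale {n : ℕ} {g gi : Fin n → Fin n → ((Fin n → ℝ) → ℝ)} (t : ℝ) (ht : t ≠ 0)
    (i : Fin 0 → Fin n) :
    tRic2.eval pd (fun i j => t • g i j) (fun i j => t⁻¹ • gi i j) i
      = (t⁻¹ * t⁻¹) • tRic2.eval pd g gi i := by
  simp only [tRic2, TF.eval, tRic_scale t ht, smul_mul_assoc, mul_smul_comm, Finset.smul_sum,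
    Finset.mul_sum, mul_smul]

theorem tS_scale {n : ℕ} {g gi : Fin n → Fin n → ((Fin n → ℝ) → ℝ)} (t : ℝ) (ht : t ≠ 0)
    (i : Fin 0 → Fin n) :
    tS.eval pd (fun i j => t • g i j) (fun i j => t⁻¹ • gi i j) i
      = (t⁻¹ * (t⁻¹ * t⁻¹)) • tS.eval pd g gi i := by
  have h1 : (tRic2.eval pd (fun i j => t • g i j) (fun i j => t⁻¹ • gi i j) : (Fin 0 → Fin n) → _)
      = fun a => (t⁻¹ * t⁻¹) • tRic2.eval pd g gi a := funext fun a => tRic2_scale t ht a
  have h2 : (covD pd (fun i j => t • g i j) (fun i j => t⁻¹ • gi i j)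
      (fun a : Fin 0 → Fin n => (t⁻¹ * t⁻¹) • tRic2.eval pd g gi a))
      = fun a => (t⁻¹ * t⁻¹) • covD pd g gi (tRic2.eval pd g gi) a :=
    funext fun a => covD_scale t ht _ _ a
  simp only [tS, TF.eval, h1, h2, covD_scale t ht, smul_mul_smul_comm, Finset.smul_sum]

theorem inv_scale {n : ℕ} {M : Matrix (Fin n) (Fin n) ℝ} (hM : M.PosDef) (t : ℝ) (ht : t ≠ 0) :
    (t • M)⁻¹ = t⁻¹ • M⁻¹ := by
  have hu : IsUnit M.det := (isUnit_iff_ne_zero).2 hM.det_pos.ne'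
  apply Matrix.inv_eq_right_inv
  rw [Matrix.smul_mul, Matrix.mul_smul, smul_smul, mul_inv_cancel₀ ht, one_smul,
    Matrix.mul_nonsing_inv _ hu]

theorem form_scale {g : (Fin 6 → ℝ) → Matrix (Fin 6) (Fin 6) ℝ} (hg : IsMet g) (t : ℝ)
    (ht : 0 < t) (x : Fin 6 → ℝ) :
    tS.form (fun y => t • g y) x = tS.form g x := by
  have ht' : t ≠ 0 := ht.ne'
  have e1 : (fun (i j : Fin 6) (y : Fin 6 → ℝ) => (t • g y) i j)
      = fun i j => t • (fun y => g y i j) := by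
    funext i j y; simp
  have e2 : (fun (i j : Fin 6) (y : Fin 6 → ℝ) => (t • g y)⁻¹ i j)
      = fun i j => t⁻¹ • (fun y => (g y)⁻¹ i j) := by
    funext i j y
    rw [inv_scale (hg.posDef y) t ht']
    simp
  unfold TF.form TF.val
  rw [e1, e2, tS_scale t ht', Matrix.det_smul, Fintype.card_fin]
  have h6 : Real.sqrt (t ^ 6 * (g x).det) = t ^ 3 * Real.sqrt (g x).det := by
    rw [Real.sqrt_mul (by positivity), show t ^ 6 = (t ^ 3) ^ 2 by ring,
      Real.sqrt_sq (by positivity)]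
  rw [h6, Pi.smul_apply, smul_eq_mul]
  field_simp

end BG
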